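import Mathlib
import Pool.Agent.Lib.MP_d9bc60_nt.SecondMoment

/-! Definitions of the UP rows (uniform positive proportion). -/

set_option autoImplicit false

namespace Pool.Agent.Lib.MP_d9bc60_nt.UP

open Finset Pool.Agent.Lib.MP_d9bc60_nt.Sieve

/-- The primes up to `M`. -/
def pr (M : ℕ) : Finset ℕ := (Finset.Icc 1 M).filter Nat.Prime

/-- The part of `(v/φ(v))^4` from the primes up to `M`. -/
noncomputable def smallp (M v : ℕ) : ℝ :=
  ∏ l ∈ v.primeFactors.filter (fun l => l ≤ M), ((l : ℝ) * ((l : ℝ) - 1)⁻¹) ^ 4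

/-- The part of `(v/φ(v))^4` from the primes above `M`. -/
noncomputable def largep (M v : ℕ) : ℝ :=
  ∏ l ∈ v.primeFactors.filter (fun l => ¬ l ≤ M), ((l : ℝ) * ((l : ℝ) - 1)⁻¹) ^ 4

/-- The odd primes `q` with `X/50 < q ≤ X/2`. -/
noncomputable def QX (X : ℝ) : Finset ℕ := (QS ⌊X / 2⌋₊).filter (fun q => X / 50 < (q : ℝ))

/-- The mean number of representations (up to constants). -/
noncomputable def mu (P X : ℝ) : ℝ := P / (Real.log P * Real.log X)

end Pool.Agent.Lib.MP_d9bc60_nt.UP
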