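import Pool.Agent.Lib.MP_d9bc60_nt.UP.U7aParam

/-! Row U10 (about 80 lines): the upper bound. -/

set_option autoImplicit false

namespace Pool.Agent.Lib.MP_d9bc60_nt.UP

open Finset Pool.Agent.Lib.MP_d9bc60_nt.Sieve

theorem u10_card (M : ℕ) : ((Finset.range (M + 1)).filter Nat.Prime).card = Nat.primeCounting M := by
  rw [Nat.primeCounting, Nat.primeCounting', Nat.count_eq_card_filter_range]

theorem u10_subset (X P : ℝ) (hX : 0 ≤ X) (b c : ℤ) (hb : ((|b| : ℤ) : ℝ) * P ≤ X) :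
    {n : ℤ | c < n ∧ (n : ℝ) ≤ c + X ∧ ∃ p q : ℕ, p.Prime ∧ q.Prime ∧ (p : ℝ) ≤ P ∧
      n = (p : ℤ) ^ 2 + b * p + c + q} ⊆
    (((((Finset.range (⌊P⌋₊ + 1)).filter Nat.Prime) ×ˢ ((Finset.range (⌊2 * X⌋₊ + 1)).filter Nat.Prime)).image
      (fun z : ℕ × ℕ => (z.1 : ℤ) ^ 2 + b * z.1 + c + z.2) : Finset ℤ) : Set ℤ) := by
  rintro n ⟨hn1, hn2, p, q, hp, hq, hpP, rfl⟩
  rw [Finset.mem_coe, Finset.mem_image]
  refine ⟨(p, q), ?_, rfl⟩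
  rw [Finset.mem_product, Finset.mem_filter, Finset.mem_filter, Finset.mem_range, Finset.mem_range]
  refine ⟨⟨Nat.lt_succ_of_le (Nat.le_floor hpP), hp⟩, ⟨Nat.lt_succ_of_le (Nat.le_floor ?_), hq⟩⟩
  push_cast at hn2
  have h1 : -((|b| : ℤ) : ℝ) * p ≤ (b : ℝ) * p := by
    refine mul_le_mul_of_nonneg_right ?_ (Nat.cast_nonneg p)
    rw [Int.cast_abs]
    exact neg_abs_le _
  have h2 : ((|b| : ℤ) : ℝ) * p ≤ ((|b| : ℤ) : ℝ) * P := by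
    refine mul_le_mul_of_nonneg_left hpP ?_
    rw [Int.cast_abs]
    exact abs_nonneg _
  nlinarith [sq_nonneg (p : ℝ)]

/-- Proof. `q = (n - c) - p² - bp ≤ X + |b| P ≤ 2X`; so `n` lies in the image of
`(primes ≤ P) × (primes ≤ 2X)` under `g b c`; `card_QS` (third part) at `P` and `2X`:
`π(P) π(2X) ≤ 10 (P/log P) 10 (2X/log(2X)) ≤ 200 μ X`. See `upper` in `TwoSided.lean`. -/
theorem upper : ∃ D : ℝ, 0 < D ∧ ∃ X₀ : ℝ, 2 ≤ X₀ ∧ ∀ X P : ℝ, X₀ ≤ X → Real.log X ≤ P →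
    ∀ b c : ℤ, ((|b| : ℤ) : ℝ) * P ≤ X →
    ({n : ℤ | c < n ∧ (n : ℝ) ≤ c + X ∧ ∃ p q : ℕ, p.Prime ∧ q.Prime ∧ (p : ℝ) ≤ P ∧
      n = (p : ℤ) ^ 2 + b * p + c + q}.ncard : ℝ) ≤ D * mu P X * X := by
  obtain ⟨P₀, hP₀, hcard⟩ := card_QS
  have hexp : P₀ + 1 ≤ Real.exp P₀ := Real.add_one_le_exp P₀
  refine ⟨200, by norm_num, Real.exp P₀, by linarith, fun X P hX hP b c hb => ?_⟩
  have hX0 : 0 < X := lt_of_lt_of_le (Real.exp_pos _) hX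
  have hlogX : P₀ ≤ Real.log X := by
    rw [Real.le_log_iff_exp_le hX0]
    exact hX
  have hPP : P₀ ≤ P := hlogX.trans hP
  have hc1 := (hcard P hPP).2.2
  have hc2 := (hcard (2 * X) (by linarith)).2.2
  have hlog1 : 0 < Real.log X := by linarith
  have hlog2 : Real.log X ≤ Real.log (2 * X) := Real.log_le_log hX0 (by linarith)
  have hlogP : 0 < Real.log P := Real.log_pos (by linarith)
  have hncard : ({n : ℤ | c < n ∧ (n : ℝ) ≤ c + X ∧ ∃ p q : ℕ, p.Prime ∧ q.Prime ∧ (p : ℝ) ≤ P ∧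
      n = (p : ℤ) ^ 2 + b * p + c + q}.ncard) ≤
      Nat.primeCounting ⌊P⌋₊ * Nat.primeCounting ⌊2 * X⌋₊ := by
    refine (Set.ncard_le_ncard (u10_subset X P hX0.le b c hb) (Finset.finite_toSet _)).trans ?_
    rw [Set.ncard_coe_finset]
    refine Finset.card_image_le.trans ?_
    rw [Finset.card_product, u10_card, u10_card]
  have h1 : ({n : ℤ | c < n ∧ (n : ℝ) ≤ c + X ∧ ∃ p q : ℕ, p.Prime ∧ q.Prime ∧ (p : ℝ) ≤ P ∧
      n = (p : ℤ) ^ 2 + b * p + c + q}.ncard : ℝ) ≤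
      (Nat.primeCounting ⌊P⌋₊ : ℝ) * Nat.primeCounting ⌊2 * X⌋₊ := by exact_mod_cast hncard
  have hPlog : 0 ≤ P / Real.log P := div_nonneg (by linarith) hlogP.le
  calc ({n : ℤ | c < n ∧ (n : ℝ) ≤ c + X ∧ ∃ p q : ℕ, p.Prime ∧ q.Prime ∧ (p : ℝ) ≤ P ∧
      n = (p : ℤ) ^ 2 + b * p + c + q}.ncard : ℝ)
      ≤ (Nat.primeCounting ⌊P⌋₊ : ℝ) * Nat.primeCounting ⌊2 * X⌋₊ := h1
    _ ≤ (10 * (P / Real.log P)) * (10 * ((2 * X) / Real.log (2 * X))) :=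
        mul_le_mul hc1 hc2 (Nat.cast_nonneg _) (by positivity)
    _ ≤ (10 * (P / Real.log P)) * (10 * ((2 * X) / Real.log X)) := by
        refine mul_le_mul_of_nonneg_left ?_ (by positivity)
        refine mul_le_mul_of_nonneg_left ?_ (by norm_num)
        exact div_le_div_of_nonneg_left (by linarith) hlog1 hlog2
    _ = 200 * mu P X * X := by
        rw [mu]
        field_simp
        ring

end Pool.Agent.Lib.MP_d9bc60_nt.UP
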