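import Pool.Agent.Lib.MP_d9bc60_nt.UP.U0Defs

/-! Row U1 (about 100 lines): a convergent sum over primes. -/

set_option autoImplicit false

namespace Pool.Agent.Lib.MP_d9bc60_nt.UP

open Finset Pool.Agent.Lib.MP_d9bc60_nt.Sieve

lemma u1_term {l j : ℕ} (hj : 1 ≤ j) (hjl : 2 ^ j ≤ l) :
    1 / ((l : ℝ) * Real.sqrt (Real.log l)) ≤
      Real.log l / (2 ^ j * ((j : ℝ) * Real.log 2) ^ (3 / 2 : ℝ)) := by
  have hj0 : (0 : ℝ) < j := by exact_mod_cast hj
  have h2 : 0 < Real.log 2 := Real.log_pos (by norm_num)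
  have ht : 0 < (j : ℝ) * Real.log 2 := by positivity
  have hl : (2 : ℝ) ^ j ≤ l := by exact_mod_cast hjl
  have hl0 : (0 : ℝ) < l := lt_of_lt_of_le (by positivity) hl
  have hlog : (j : ℝ) * Real.log 2 ≤ Real.log l := by
    rw [← Real.log_pow]
    exact Real.log_le_log (by positivity) hl
  have hlog0 : 0 < Real.log l := lt_of_lt_of_le ht hlog
  have hs : 0 < Real.sqrt (Real.log l) := Real.sqrt_pos.2 hlog0
  have h1 : ((j : ℝ) * Real.log 2) ^ (3 / 2 : ℝ) ≤ Real.log l * Real.sqrt (Real.log l) := by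
    have e1 : Real.log l * Real.sqrt (Real.log l) = (Real.log l) ^ (3 / 2 : ℝ) := by
      rw [Real.sqrt_eq_rpow]
      nth_rewrite 1 [← Real.rpow_one (Real.log l)]
      rw [← Real.rpow_add hlog0]
      norm_num
    rw [e1]
    exact Real.rpow_le_rpow ht.le hlog (by norm_num)
  have h3 : 0 < ((j : ℝ) * Real.log 2) ^ (3 / 2 : ℝ) := Real.rpow_pos_of_pos ht _
  rw [div_le_div_iff₀ (by positivity) (by positivity), one_mul]
  calc (2 : ℝ) ^ j * ((j : ℝ) * Real.log 2) ^ (3 / 2 : ℝ)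
      ≤ l * (Real.log l * Real.sqrt (Real.log l)) := mul_le_mul hl h1 h3.le hl0.le
    _ = Real.log l * (l * Real.sqrt (Real.log l)) := by ring

lemma u1_block (M j : ℕ) :
    ∑ l ∈ (pr M).filter (fun l => Nat.log 2 l = j), 1 / ((l : ℝ) * Real.sqrt (Real.log l)) ≤
      (2 * Real.log 4 / Real.log 2 ^ (3 / 2 : ℝ)) * ((j : ℝ) ^ (3 / 2 : ℝ))⁻¹ := by
  have h2 : 0 < Real.log 2 := Real.log_pos (by norm_num)
  have h4 : 0 < Real.log 4 := Real.log_pos (by norm_num)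
  rcases Nat.eq_zero_or_pos j with rfl | hj
  · have he : (pr M).filter (fun l => Nat.log 2 l = 0) = ∅ := by
      rw [Finset.filter_eq_empty_iff]
      intro l hl h0
      unfold pr at hl
      rw [Finset.mem_filter] at hl
      rw [Nat.log_eq_zero_iff] at h0
      have := hl.2.two_le
      omega
    rw [he, Finset.sum_empty]
    positivity
  have hj0 : (0 : ℝ) < j := by exact_mod_cast hj
  have ht : 0 < (j : ℝ) * Real.log 2 := by positivity
  have h3 : 0 < ((j : ℝ) * Real.log 2) ^ (3 / 2 : ℝ) := Real.rpow_pos_of_pos ht _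
  have hsub : ∑ l ∈ (pr M).filter (fun l => Nat.log 2 l = j), Real.log l ≤ Real.log 4 * 2 ^ (j + 1) := by
    have e1 := Chebyshev.theta_le_log4_mul_x (x := (2 : ℝ) ^ (j + 1)) (by positivity)
    refine le_trans ?_ e1
    have e2 : ((2 : ℝ) ^ (j + 1)) = ((2 ^ (j + 1) : ℕ) : ℝ) := by push_cast; rfl
    rw [e2, Chebyshev.theta_eq_sum_Icc, Nat.floor_natCast]
    refine Finset.sum_le_sum_of_subset_of_nonneg ?_ ?_
    · intro l hl
      unfold pr at hl
      rw [Finset.mem_filter, Finset.mem_filter] at hl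
      rw [Finset.mem_filter, Finset.mem_Icc]
      refine ⟨⟨Nat.zero_le _, ?_⟩, hl.1.2⟩
      have := Nat.lt_pow_succ_log_self (b := 2) (by norm_num) l
      rw [hl.2] at this
      exact this.le
    · intro l _ _
      exact Real.log_natCast_nonneg l
  calc ∑ l ∈ (pr M).filter (fun l => Nat.log 2 l = j), 1 / ((l : ℝ) * Real.sqrt (Real.log l))
      ≤ ∑ l ∈ (pr M).filter (fun l => Nat.log 2 l = j),
          Real.log l / (2 ^ j * ((j : ℝ) * Real.log 2) ^ (3 / 2 : ℝ)) := by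
        refine Finset.sum_le_sum fun l hl => u1_term hj ?_
        unfold pr at hl
        rw [Finset.mem_filter, Finset.mem_filter] at hl
        rw [← hl.2]
        exact Nat.pow_log_le_self 2 hl.1.2.ne_zero
    _ = (∑ l ∈ (pr M).filter (fun l => Nat.log 2 l = j), Real.log l) /
          (2 ^ j * ((j : ℝ) * Real.log 2) ^ (3 / 2 : ℝ)) := by rw [Finset.sum_div]
    _ ≤ (Real.log 4 * 2 ^ (j + 1)) / (2 ^ j * ((j : ℝ) * Real.log 2) ^ (3 / 2 : ℝ)) := by gcongr
    _ = (2 * Real.log 4 / Real.log 2 ^ (3 / 2 : ℝ)) * ((j : ℝ) ^ (3 / 2 : ℝ))⁻¹ := by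
        rw [Real.mul_rpow hj0.le h2.le, pow_succ]
        have a1 : (j : ℝ) ^ (3 / 2 : ℝ) ≠ 0 := (Real.rpow_pos_of_pos hj0 _).ne'
        have a2 : Real.log 2 ^ (3 / 2 : ℝ) ≠ 0 := (Real.rpow_pos_of_pos h2 _).ne'
        field_simp

/-- Proof. Dyadic blocks: for `2^j < l ≤ 2^(j+1)`, `j ≥ 1`: `1/(l √(log l)) ≤ 1/(2^j √(j log 2))`, and the
number of primes `l ≤ 2^(j+1)` is at most `C 2^(j+1)/(j+1)` (`Chebyshev.eventually_primeCounting_le`,
enlarging `C` for the small `j`), so the block is at most `C'/(j √j)`, and `∑ j^(-3/2)` converges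
(`Real.summable_nat_rpow_inv` or so). (The prime `l = 2` adds `1/(2 √(log 2))`.) -/
theorem weights : ∃ c : ℝ, 0 < c ∧ ∀ M : ℕ,
    ∑ l ∈ pr M, c / ((l : ℝ) * Real.sqrt (Real.log l)) ≤ 1 := by
  have h2 : 0 < Real.log 2 := Real.log_pos (by norm_num)
  have h4 : 0 < Real.log 4 := Real.log_pos (by norm_num)
  have hsum : Summable fun j : ℕ => ((j : ℝ) ^ (3 / 2 : ℝ))⁻¹ :=
    Real.summable_nat_rpow_inv.2 (by norm_num)
  obtain ⟨A, hA⟩ : ∃ A : ℝ, A = 2 * Real.log 4 / Real.log 2 ^ (3 / 2 : ℝ) := ⟨_, rfl⟩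
  obtain ⟨T, hT⟩ : ∃ T : ℝ, T = ∑' j : ℕ, ((j : ℝ) ^ (3 / 2 : ℝ))⁻¹ := ⟨_, rfl⟩
  have hA0 : 0 < A := by rw [hA]; positivity
  have hT0 : 0 ≤ T := by rw [hT]; exact tsum_nonneg fun j => by positivity
  have key : ∀ M : ℕ, ∑ l ∈ pr M, 1 / ((l : ℝ) * Real.sqrt (Real.log l)) ≤ A * T := by
    intro M
    have hmaps : ∀ l ∈ pr M, Nat.log 2 l ∈ Finset.range (M + 1) := by
      intro l hl
      unfold pr at hl
      rw [Finset.mem_filter, Finset.mem_Icc] at hl
      rw [Finset.mem_range]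
      have := Nat.log_le_self 2 l
      omega
    rw [← Finset.sum_fiberwise_of_maps_to hmaps]
    calc _ ≤ ∑ j ∈ Finset.range (M + 1), A * ((j : ℝ) ^ (3 / 2 : ℝ))⁻¹ :=
          Finset.sum_le_sum fun j _ => by rw [hA]; exact u1_block M j
      _ = A * ∑ j ∈ Finset.range (M + 1), ((j : ℝ) ^ (3 / 2 : ℝ))⁻¹ := by rw [Finset.mul_sum]
      _ ≤ A * T := by
          refine mul_le_mul_of_nonneg_left ?_ hA0.le
          rw [hT]
          exact hsum.sum_le_tsum _ (fun j _ => by positivity)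
  refine ⟨1 / (A * T + 1), by positivity, fun M => ?_⟩
  have h1 : ∑ l ∈ pr M, 1 / (A * T + 1) / ((l : ℝ) * Real.sqrt (Real.log l)) =
      1 / (A * T + 1) * ∑ l ∈ pr M, 1 / ((l : ℝ) * Real.sqrt (Real.log l)) := by
    rw [Finset.mul_sum]
    refine Finset.sum_congr rfl fun l _ => ?_
    rw [mul_one_div]
  rw [h1]
  have h3 : 0 ≤ A * T := by positivity
  rw [one_div, inv_mul_le_iff₀ (by positivity), mul_one]
  linarith [key M]

end Pool.Agent.Lib.MP_d9bc60_nt.UP
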