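import Pool.Agent.Lib.MP_d9bc60_nt.UP.U1Weights

/-! Row U2 (about 120 lines): Jensen's inequality with the weights of U1. -/

set_option autoImplicit false

namespace Pool.Agent.Lib.MP_d9bc60_nt.UP

open Finset Pool.Agent.Lib.MP_d9bc60_nt.Sieve

theorem u2_jensen {ι : Type*} (T : Finset ι) (w x : ι → ℝ) (hw : ∀ i ∈ T, 0 ≤ w i)
    (hW : ∑ i ∈ T, w i ≤ 1) :
    Real.exp (∑ i ∈ T, w i * x i) ≤ 1 + ∑ i ∈ T, w i * Real.exp (x i) := by
  set y := ∑ i ∈ T, w i * x i with hy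
  set W := ∑ i ∈ T, w i with hWd
  have hE : 0 < Real.exp y := Real.exp_pos _
  have hW0 : 0 ≤ W := Finset.sum_nonneg hw
  have h1 : ∀ z : ℝ, Real.exp y * (1 + z - y) ≤ Real.exp z := by
    intro z
    have h2 := Real.add_one_le_exp (z - y)
    have h3 : Real.exp z = Real.exp y * Real.exp (z - y) := by
      rw [← Real.exp_add]; congr 1; ring
    rw [h3]
    exact mul_le_mul_of_nonneg_left (by linarith) hE.le
  have h0 := h1 0
  rw [Real.exp_zero] at h0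
  have h2 : ∑ i ∈ T, w i * (Real.exp y * (1 + x i - y)) ≤ ∑ i ∈ T, w i * Real.exp (x i) :=
    Finset.sum_le_sum (fun i hi => mul_le_mul_of_nonneg_left (h1 _) (hw i hi))
  have h3 : ∑ i ∈ T, w i * (Real.exp y * (1 + x i - y)) = Real.exp y * (W * (1 - y) + y) := by
    have h4 : ∀ i ∈ T, w i * (Real.exp y * (1 + x i - y)) =
        Real.exp y * (1 - y) * w i + Real.exp y * (w i * x i) := by
      intro i _; ring
    rw [Finset.sum_congr rfl h4, Finset.sum_add_distrib, ← Finset.mul_sum, ← Finset.mul_sum]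
    ring
  rw [h3] at h2
  have h5 : (1 - W) * (Real.exp y * (1 + 0 - y)) ≤ (1 - W) * 1 :=
    mul_le_mul_of_nonneg_left h0 (by linarith)
  have h6 : Real.exp y = (1 - W) * (Real.exp y * (1 + 0 - y)) + Real.exp y * (W * (1 - y) + y) := by
    ring
  rw [h6]
  linarith

theorem u2_factor (l : ℕ) (hl : l.Prime) :
    ((l : ℝ) * ((l : ℝ) - 1)⁻¹) ^ 4 ≤ Real.exp (8 / l) := by
  have h2 : (2 : ℝ) ≤ l := by exact_mod_cast hl.two_le
  have h1 : (0 : ℝ) < (l : ℝ) - 1 := by linarith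
  have h3 : (l : ℝ) * ((l : ℝ) - 1)⁻¹ = 1 / ((l : ℝ) - 1) + 1 := by
    field_simp
    ring
  have h4 : (l : ℝ) * ((l : ℝ) - 1)⁻¹ ≤ Real.exp (2 / l) := by
    rw [h3]
    refine (Real.add_one_le_exp _).trans (Real.exp_le_exp.mpr ?_)
    rw [div_le_div_iff₀ h1 (by linarith)]
    linarith
  have h5 : (0 : ℝ) ≤ (l : ℝ) * ((l : ℝ) - 1)⁻¹ := by positivity
  calc ((l : ℝ) * ((l : ℝ) - 1)⁻¹) ^ 4 ≤ (Real.exp (2 / l)) ^ 4 := pow_le_pow_left₀ h5 h4 4
    _ = Real.exp (8 / l) := by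
      rw [← Real.exp_nat_mul]; congr 1; push_cast; ring

theorem u2_term (c : ℝ) (hc : 0 < c) (l : ℕ) (hl : l.Prime) :
    c / ((l : ℝ) * Real.sqrt (Real.log l)) * Real.exp (8 / c * Real.sqrt (Real.log l)) ≤
      c / Real.sqrt (Real.log 2) * Real.exp (64 / c ^ 2) * (l : ℝ) ^ (-(3 / 4) : ℝ) := by
  have h2 : (2 : ℝ) ≤ l := by exact_mod_cast hl.two_le
  have hl0 : (0 : ℝ) < l := by linarith
  have hlog2 : 0 < Real.log 2 := Real.log_pos (by norm_num)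
  have hlog : Real.log 2 ≤ Real.log l := Real.log_le_log (by norm_num) h2
  have hs2 : 0 < Real.sqrt (Real.log 2) := Real.sqrt_pos.mpr hlog2
  have hs : Real.sqrt (Real.log 2) ≤ Real.sqrt (Real.log l) := Real.sqrt_le_sqrt hlog
  have hs0 : 0 < Real.sqrt (Real.log l) := lt_of_lt_of_le hs2 hs
  have hsq : Real.sqrt (Real.log l) ^ 2 = Real.log l := Real.sq_sqrt (by linarith)
  have h3 : 8 / c * Real.sqrt (Real.log l) ≤ 64 / c ^ 2 + Real.log l * (1 / 4) := by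
    have h4 := sq_nonneg (Real.sqrt (Real.log l) / 2 - 8 / c)
    have h5 : (Real.sqrt (Real.log l) / 2 - 8 / c) ^ 2 =
        Real.sqrt (Real.log l) ^ 2 / 4 - 8 / c * Real.sqrt (Real.log l) + 64 / c ^ 2 := by
      field_simp
      ring
    rw [h5, hsq] at h4
    linarith
  have h6 : Real.exp (8 / c * Real.sqrt (Real.log l)) ≤
      Real.exp (64 / c ^ 2) * (l : ℝ) ^ (1 / 4 : ℝ) := by
    rw [Real.rpow_def_of_pos hl0, ← Real.exp_add]
    exact Real.exp_le_exp.mpr h3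
  have h7 : c / ((l : ℝ) * Real.sqrt (Real.log l)) ≤ c / Real.sqrt (Real.log 2) * (l : ℝ) ^ (-1 : ℝ) := by
    rw [Real.rpow_neg_one, ← div_eq_mul_inv, div_div]
    refine div_le_div_of_nonneg_left hc.le (by positivity) ?_
    rw [mul_comm]
    exact mul_le_mul_of_nonneg_left hs hl0.le
  have h8 : (l : ℝ) ^ (-(3 / 4) : ℝ) = (l : ℝ) ^ (-1 : ℝ) * (l : ℝ) ^ (1 / 4 : ℝ) := by
    rw [← Real.rpow_add hl0]; norm_num
  rw [h8]
  calc c / ((l : ℝ) * Real.sqrt (Real.log l)) * Real.exp (8 / c * Real.sqrt (Real.log l))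
      ≤ (c / Real.sqrt (Real.log 2) * (l : ℝ) ^ (-1 : ℝ)) *
        (Real.exp (64 / c ^ 2) * (l : ℝ) ^ (1 / 4 : ℝ)) :=
        mul_le_mul h7 h6 (Real.exp_pos _).le (by positivity)
    _ = _ := by ring

/-- Proof. `c` from `weights`, `w_l = c/(l √(log l))`. For a prime `l`: `(l/(l-1))^4 ≤ exp(8/l)`
(`l/(l-1) = 1 + 1/(l-1) ≤ exp(1/(l-1)) ≤ exp(2/l)`). So `smallp M v ≤ exp(∑_{l ≤ M} x_l w_l)`, where
`x_l = (8/c) √(log l)` if `l ∣ v` and `0` otherwise. `Real.exp` is convex, `∑_{l ≤ M} w_l ≤ 1`, so (give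
the missing weight to the value `0`; `ConvexOn.map_sum_le` over `insert 0 (pr M)`, note `0 ∉ pr M`)
`exp(∑ w_l x_l) ≤ (1 - ∑ w_l) + ∑ w_l exp(x_l) ≤ 1 + ∑_{l ≤ M, l ∣ v} w_l exp(x_l)`.
`(8/c) √(log l) ≤ (log l)/4 + 64/c²` (`2ab ≤ a² + b²`), so
`w_l exp(x_l) ≤ (c/√(log 2)) exp(64/c²) l^(-1) l^(1/4)`. -/
theorem smallp_le : ∃ C : ℝ, 0 < C ∧ ∀ M v : ℕ, 0 < v →
    smallp M v ≤ 1 + C * ∑ l ∈ (pr M).filter (fun l => l ∣ v), (l : ℝ) ^ (-(3 / 4) : ℝ) := by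
  obtain ⟨c, hc, hw⟩ := weights
  have hlog2 : 0 < Real.log 2 := Real.log_pos (by norm_num)
  have hs2 : 0 < Real.sqrt (Real.log 2) := Real.sqrt_pos.mpr hlog2
  refine ⟨c / Real.sqrt (Real.log 2) * Real.exp (64 / c ^ 2), by positivity, ?_⟩
  intro M v hv
  set T := (pr M).filter (fun l => l ∣ v) with hT
  have hTp : ∀ l ∈ T, l.Prime := by
    intro l hl
    rw [hT, mem_filter, pr, mem_filter] at hl
    exact hl.1.2
  have hset : v.primeFactors.filter (fun l => l ≤ M) = T := by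
    ext l
    rw [hT, mem_filter, mem_filter, pr, mem_filter, mem_Icc, Nat.mem_primeFactors]
    constructor
    · rintro ⟨⟨h1, h2, _⟩, h4⟩
      exact ⟨⟨⟨h1.one_le, h4⟩, h1⟩, h2⟩
    · rintro ⟨⟨⟨_, h2⟩, h3⟩, h4⟩
      exact ⟨⟨h3, h4, hv.ne'⟩, h2⟩
  set w : ℕ → ℝ := fun l => c / ((l : ℝ) * Real.sqrt (Real.log l)) with hwd
  set x : ℕ → ℝ := fun l => 8 / c * Real.sqrt (Real.log l) with hxd
  have hw0 : ∀ l : ℕ, 0 ≤ w l := fun l => by rw [hwd]; positivity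
  have hW : ∑ l ∈ T, w l ≤ 1 :=
    (Finset.sum_le_sum_of_subset_of_nonneg (filter_subset _ _) (fun l _ _ => hw0 l)).trans (hw M)
  have hJ := u2_jensen T w x (fun l _ => hw0 l) hW
  have h1 : smallp M v ≤ Real.exp (∑ l ∈ T, w l * x l) := by
    rw [smallp, hset, Real.exp_sum]
    refine Finset.prod_le_prod (fun l hl => ?_) (fun l hl => ?_)
    · positivity
    · have h2 : (2 : ℝ) ≤ l := by exact_mod_cast (hTp l hl).two_le
      have hlog : Real.log 2 ≤ Real.log l := Real.log_le_log (by norm_num) h2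
      have hs0 : 0 < Real.sqrt (Real.log l) := Real.sqrt_pos.mpr (by linarith)
      have h3 : w l * x l = 8 / l := by
        rw [hwd, hxd]
        have : (l : ℝ) ≠ 0 := by linarith
        field_simp
      rw [h3]
      exact u2_factor l (hTp l hl)
  refine h1.trans (hJ.trans ?_)
  rw [Finset.mul_sum]
  have h4 : ∑ l ∈ T, w l * Real.exp (x l) ≤ ∑ l ∈ T,
      c / Real.sqrt (Real.log 2) * Real.exp (64 / c ^ 2) * (l : ℝ) ^ (-(3 / 4) : ℝ) :=
    Finset.sum_le_sum (fun l hl => u2_term c hc l (hTp l hl))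
  linarith

end Pool.Agent.Lib.MP_d9bc60_nt.UP
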