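import Pool.Agent.Lib.MP_d9bc60_nt.UP.U0Defs

/-! Row U3 (about 70 lines): the large primes. -/

set_option autoImplicit false

namespace Pool.Agent.Lib.MP_d9bc60_nt.UP

open Finset Pool.Agent.Lib.MP_d9bc60_nt.Sieve

/-- Proof. With `k` primes `l > M` dividing `v`: `M^k ≤ ∏ l ≤ v ≤ exp M`, so `k ≤ M/log M`. Each factor is
at most `(1 + 1/M)^4 ≤ exp(4/M)` (`l ≥ M + 1`), the product at most `exp(4k/M) ≤ exp(4/log M) ≤ 2` for
`M ≥ M₀`. -/
theorem largep_le : ∃ M₀ : ℕ, 2 ≤ M₀ ∧ ∀ M v : ℕ, M₀ ≤ M → 0 < v → (v : ℝ) ≤ Real.exp M →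
    largep M v ≤ 2 := by
  have hlog2 : 0 < Real.log 2 := Real.log_pos (by norm_num)
  refine ⟨⌈Real.exp (4 / Real.log 2)⌉₊ + 2, by omega, ?_⟩
  intro M v hM hv hvM
  have hM2 : 2 ≤ M := by omega
  have hMr : (2 : ℝ) ≤ M := by exact_mod_cast hM2
  have hMe : Real.exp (4 / Real.log 2) ≤ M := by
    refine (Nat.le_ceil _).trans ?_
    exact_mod_cast (by omega : ⌈Real.exp (4 / Real.log 2)⌉₊ ≤ M)
  have hlogM : 4 / Real.log 2 ≤ Real.log M := by
    rw [Real.le_log_iff_exp_le (by linarith)]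
    exact hMe
  have hlogM0 : 0 < Real.log M := lt_of_lt_of_le (by positivity) hlogM
  set F : Finset ℕ := v.primeFactors.filter (fun l => ¬ l ≤ M) with hF
  have hFp : ∀ l ∈ F, l.Prime ∧ M < l := by
    intro l hl
    rw [hF, Finset.mem_filter] at hl
    exact ⟨Nat.prime_of_mem_primeFactors hl.1, by omega⟩
  have hdvd : (∏ l ∈ F, l) ∣ v :=
    (Finset.prod_dvd_prod_of_subset _ _ _ (Finset.filter_subset _ _)).trans
      (Nat.prod_primeFactors_dvd v)
  have hle : ∏ l ∈ F, l ≤ v := Nat.le_of_dvd hv hdvd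
  have hpow : M ^ F.card ≤ ∏ l ∈ F, l := by
    rw [← Finset.prod_const]
    exact Finset.prod_le_prod' (fun l hl => (hFp l hl).2.le)
  have hpow2 : (M : ℝ) ^ F.card ≤ Real.exp M := by
    refine le_trans ?_ hvM
    exact_mod_cast hpow.trans hle
  have hk : (F.card : ℝ) * Real.log M ≤ M := by
    have h1 := Real.log_le_log (by positivity) hpow2
    rw [Real.log_pow, Real.log_exp] at h1
    exact h1
  have hfac : ∀ l ∈ F, ((l : ℝ) * ((l : ℝ) - 1)⁻¹) ^ 4 ≤ Real.exp (4 / M) := by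
    intro l hl
    have h1 : (M : ℝ) + 1 ≤ l := by exact_mod_cast (hFp l hl).2
    have h2 : (l : ℝ) * ((l : ℝ) - 1)⁻¹ = 1 + ((l : ℝ) - 1)⁻¹ := by
      have : (l : ℝ) - 1 ≠ 0 := by linarith
      field_simp
      ring
    have h3 : ((l : ℝ) - 1)⁻¹ ≤ 1 / M := by
      rw [one_div]
      exact inv_anti₀ (by linarith) (by linarith)
    have h4 : 0 ≤ ((l : ℝ) - 1)⁻¹ := inv_nonneg.2 (by linarith)
    have h5 : 1 + ((l : ℝ) - 1)⁻¹ ≤ Real.exp (1 / M) := by
      have := Real.add_one_le_exp (1 / (M : ℝ))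
      linarith
    have h6 : Real.exp (4 / (M : ℝ)) = Real.exp (1 / M) ^ 4 := by
      rw [← Real.exp_nat_mul]
      congr 1
      push_cast
      ring
    rw [h2, h6]
    exact pow_le_pow_left₀ (by linarith) h5 4
  have hprod : largep M v ≤ Real.exp (4 / M) ^ F.card := by
    unfold largep
    rw [← hF, ← Finset.prod_const]
    apply Finset.prod_le_prod
    · intro l hl
      positivity
    · exact hfac
  refine hprod.trans ?_
  rw [← Real.exp_nat_mul]
  have h7 : (F.card : ℝ) * (4 / M) ≤ Real.log 2 := by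
    have h8 : 4 ≤ Real.log M * Real.log 2 := by
      rw [div_le_iff₀ hlog2] at hlogM
      exact hlogM
    have hM0 : (0 : ℝ) < M := by linarith
    have h9 : (F.card : ℝ) * (4 / M) = (F.card : ℝ) * 4 / M := by ring
    rw [h9, div_le_iff₀ hM0]
    calc (F.card : ℝ) * 4 ≤ F.card * (Real.log M * Real.log 2) := by gcongr
      _ = Real.log 2 * (F.card * Real.log M) := by ring
      _ ≤ Real.log 2 * M := by gcongr
  calc Real.exp ((F.card : ℝ) * (4 / M)) ≤ Real.exp (Real.log 2) := Real.exp_le_exp.2 h7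
    _ = 2 := Real.exp_log (by norm_num)

/-- Proof. `rphi v = v/φ(v) = ∏_{l ∣ v} l/(l-1)` (see `rphi_mul_le`, `inv_ratio`, or `rphi_pow` and its proof),
`Finset.prod_filter_mul_prod_filter_not`. -/
theorem rphi_split (M v : ℕ) (hv : 0 < v) : (rphi v) ^ 4 = smallp M v * largep M v := by
  unfold smallp largep
  rw [Finset.prod_filter_mul_prod_filter_not, rphi_apply, ← div_eq_mul_inv, ← inv_ratio v hv,
    ← Finset.prod_pow]
  apply Finset.prod_congr rfl
  intro p hp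
  have hpp := Nat.prime_of_mem_primeFactors hp
  have h1 : (1 : ℝ) < p := by exact_mod_cast hpp.one_lt
  have h2 : (p : ℝ) - 1 ≠ 0 := by linarith
  have h3 : (1 - (p : ℝ)⁻¹)⁻¹ = (p : ℝ) * ((p : ℝ) - 1)⁻¹ := by
    have : (p : ℝ) ≠ 0 := by linarith
    field_simp
  rw [h3]

end Pool.Agent.Lib.MP_d9bc60_nt.UP
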