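import Pool.Agent.Lib.MP_d9bc60_nt.UP.U2Jensen
import Pool.Agent.Lib.MP_d9bc60_nt.UP.U3Large

/-! Row U4: the average of `(v/φ(v))^4` over shifted primes, any shift. -/

set_option autoImplicit false

namespace Pool.Agent.Lib.MP_d9bc60_nt.UP

open Finset Pool.Agent.Lib.MP_d9bc60_nt.Sieve

lemma u4_smallp_nonneg (M v : ℕ) : 0 ≤ smallp M v := by
  unfold smallp
  apply Finset.prod_nonneg
  intro l _
  positivity

/-- The average of `(v/φ(v))^4` over shifted primes. -/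
theorem avg_big : ∃ C : ℝ, 0 < C ∧ ∃ Y₀ : ℕ, 2 ≤ Y₀ ∧ ∀ Y : ℕ, Y₀ ≤ Y → ∀ t : ℤ,
    ((|t| : ℤ) : ℝ) + Y ≤ Real.exp Y →
    ∑ p ∈ (Finset.Icc 1 Y).filter (fun p : ℕ => p.Prime ∧ (p : ℤ) ≠ t),
      (rphi ((p : ℤ) - t).natAbs) ^ 4 ≤ C * (Y : ℝ) / Real.log Y := by
  classical
  obtain ⟨C₁, hC₁, hsmall⟩ := smallp_le
  obtain ⟨M₀, hM₀, hlarge⟩ := largep_le
  obtain ⟨N₁, hN₁, hbt⟩ := bt
  obtain ⟨N₂, hN₂, hlog⟩ := log_le_rpow
  set S : ℝ := ∑' n : ℕ, (n : ℝ) ^ (-(5 / 4) : ℝ) with hS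
  have hS0 : 0 ≤ S := tsum_nonneg fun n => by positivity
  refine ⟨20 + 40 * C₁ * S, by positivity, max (max M₀ N₁) N₂,
    hM₀.trans ((le_max_left _ _).trans (le_max_left _ _)), ?_⟩
  intro Y hY t ht
  have hY0 : M₀ ≤ Y := ((le_max_left _ _).trans (le_max_left _ _)).trans hY
  have hY1 : N₁ ≤ Y := ((le_max_right _ _).trans (le_max_left _ _)).trans hY
  have hY2 : N₂ ≤ Y := (le_max_right _ _).trans hY
  have hYge2 : 2 ≤ Y := hN₁.trans hY1
  have hYR : (2 : ℝ) ≤ Y := by exact_mod_cast hYge2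
  have hlogpos : 0 < Real.log Y := Real.log_pos (by linarith)
  have hYl : 0 ≤ (Y : ℝ) / Real.log Y := by positivity
  have h34 : (Y : ℝ) ^ (3 / 4 : ℝ) ≤ (Y : ℝ) / Real.log Y := by
    rw [le_div_iff₀ hlogpos]
    have hL := hlog Y hY2
    calc (Y : ℝ) ^ (3 / 4 : ℝ) * Real.log Y ≤ (Y : ℝ) ^ (3 / 4 : ℝ) * (Y : ℝ) ^ (1 / 8 : ℝ) := by
          gcongr
      _ = (Y : ℝ) ^ (7 / 8 : ℝ) := by
          rw [← Real.rpow_add (by linarith)]
          norm_num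
      _ ≤ (Y : ℝ) ^ (1 : ℝ) := Real.rpow_le_rpow_of_exponent_le (by linarith) (by norm_num)
      _ = Y := Real.rpow_one _
  set Pr := (Finset.Icc 1 Y).filter (fun p : ℕ => p.Prime ∧ (p : ℤ) ≠ t) with hPr
  -- pointwise
  have h1 : ∀ p ∈ Pr, (rphi ((p : ℤ) - t).natAbs) ^ 4 ≤
      2 + 2 * C₁ * ∑ l ∈ pr Y, if l ∣ ((p : ℤ) - t).natAbs then (l : ℝ) ^ (-(3 / 4) : ℝ) else 0 := by
    intro p hp
    rw [hPr, Finset.mem_filter, Finset.mem_Icc] at hp
    set v := ((p : ℤ) - t).natAbs with hv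
    have hv0 : 0 < v := by
      rw [hv, Int.natAbs_pos]
      intro h
      exact hp.2.2 (by linarith)
    have hvexp : (v : ℝ) ≤ Real.exp Y := by
      refine le_trans ?_ ht
      have h2 : (v : ℤ) ≤ |t| + Y := by
        rw [hv, Int.natCast_natAbs]
        have h3 : (p : ℤ) ≤ Y := by exact_mod_cast hp.1.2
        have h4 : (0 : ℤ) ≤ p := by positivity
        have h5 := neg_abs_le t
        have h6 := le_abs_self t
        rw [abs_le]
        constructor <;> linarith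
      have h3 : ((v : ℤ) : ℝ) ≤ ((|t| + Y : ℤ) : ℝ) := by exact_mod_cast h2
      push_cast at h3
      push_cast
      exact h3
    have h2 := hsmall Y v hv0
    have h3 := hlarge Y v hY0 hv0 hvexp
    have h4 := u4_smallp_nonneg Y v
    rw [rphi_split Y v hv0, ← Finset.sum_filter]
    nlinarith
  refine (Finset.sum_le_sum h1).trans ?_
  rw [Finset.sum_add_distrib, Finset.sum_const, nsmul_eq_mul, ← Finset.mul_sum, Finset.sum_comm]
  -- the number of primes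
  have hcardPr : (Pr.card : ℝ) ≤ 10 * ((Y : ℝ) / Real.log Y) := by
    have h2 := hbt Y hY1 1 0 one_pos (by omega)
    rw [Nat.totient_one, Nat.cast_one, one_mul] at h2
    have h3 : (Pr.card : ℝ) ≤
        (((Finset.Icc 1 Y).filter (fun p => p.Prime ∧ p ≡ 0 [MOD 1])).card : ℝ) := by
      have : Pr ⊆ (Finset.Icc 1 Y).filter (fun p => p.Prime ∧ p ≡ 0 [MOD 1]) := by
        intro p hp
        rw [hPr, Finset.mem_filter] at hp
        rw [Finset.mem_filter]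
        exact ⟨hp.1, hp.2.1, Nat.modEq_one⟩
      exact_mod_cast Finset.card_le_card this
    have h4 : 10 * (Y : ℝ) / Real.log Y = 10 * ((Y : ℝ) / Real.log Y) := by ring
    linarith
  -- counts
  have h2 : ∀ l ∈ pr Y, (∑ p ∈ Pr, if l ∣ ((p : ℤ) - t).natAbs then (l : ℝ) ^ (-(3 / 4) : ℝ) else 0) ≤
      20 * ((Y : ℝ) / Real.log Y) * (l : ℝ) ^ (-(5 / 4) : ℝ) := by
    intro e he
    unfold pr at he
    rw [Finset.mem_filter, Finset.mem_Icc] at he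
    have hprime : e.Prime := he.2
    have he0 : 0 < e := he.1.1
    have he2 : (2 : ℝ) ≤ e := by exact_mod_cast hprime.two_le
    have heR : (0 : ℝ) < e := by linarith
    rw [← Finset.sum_filter, Finset.sum_const, nsmul_eq_mul]
    set a := (t % (e : ℤ)).toNat with ha
    have ha' : ((a : ℕ) : ℤ) = t % (e : ℤ) := by
      rw [ha, Int.toNat_of_nonneg (Int.emod_nonneg _ (by positivity))]
    have hsub : Pr.filter (fun p : ℕ => e ∣ ((p : ℤ) - t).natAbs) ⊆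
        (Finset.Icc 1 Y).filter (fun p => p.Prime ∧ p ≡ a [MOD e]) := by
      intro p hp
      rw [Finset.mem_filter, hPr, Finset.mem_filter] at hp
      rw [Finset.mem_filter]
      refine ⟨hp.1.1, hp.1.2.1, ?_⟩
      rw [← Int.natCast_modEq_iff, ha']
      have h3 : (e : ℤ) ∣ (p : ℤ) - t := by
        rw [← Int.natAbs_dvd_natAbs, Int.natAbs_natCast]
        exact hp.2
      have h4 : t ≡ p [ZMOD e] := Int.modEq_iff_dvd.2 h3
      exact (h4.symm).trans (Int.mod_modEq t e).symm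
    have hc1 : ((Pr.filter (fun p : ℕ => e ∣ ((p : ℤ) - t).natAbs)).card : ℝ) ≤
        (((Finset.Icc 1 Y).filter (fun p => p.Prime ∧ p ≡ a [MOD e])).card : ℝ) := by
      exact_mod_cast Finset.card_le_card hsub
    have hpow0 : 0 < (e : ℝ) ^ (-(3 / 4) : ℝ) := Real.rpow_pos_of_pos heR _
    by_cases hee : e * e ≤ Y
    · have h3 := hbt Y hY1 e a he0 hee
      rw [Nat.totient_prime hprime, Nat.cast_sub hprime.one_le, Nat.cast_one] at h3
      have h4 : 10 * (Y : ℝ) / (((e : ℝ) - 1) * Real.log Y) ≤ 20 * ((Y : ℝ) / Real.log Y) * (e : ℝ)⁻¹ := by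
        have h5 : 20 * ((Y : ℝ) / Real.log Y) * (e : ℝ)⁻¹ = 20 * (Y : ℝ) / (e * Real.log Y) := by
          field_simp
        rw [h5, div_le_div_iff₀ (by apply mul_pos _ hlogpos; linarith) (by positivity)]
        have h6 : 0 ≤ (Y : ℝ) * Real.log Y := by positivity
        nlinarith
      calc ((Pr.filter (fun p : ℕ => e ∣ ((p : ℤ) - t).natAbs)).card : ℝ) * (e : ℝ) ^ (-(3 / 4) : ℝ)
          ≤ (20 * ((Y : ℝ) / Real.log Y) * (e : ℝ)⁻¹) * (e : ℝ) ^ (-(3 / 4) : ℝ) := by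
            apply mul_le_mul_of_nonneg_right _ hpow0.le
            linarith
        _ = 20 * ((Y : ℝ) / Real.log Y) * (e : ℝ) ^ (-(7 / 4) : ℝ) := by
            rw [mul_assoc, ← Real.rpow_neg_one, ← Real.rpow_add heR]
            norm_num
        _ ≤ 20 * ((Y : ℝ) / Real.log Y) * (e : ℝ) ^ (-(5 / 4) : ℝ) := by
            apply mul_le_mul_of_nonneg_left _ (by positivity)
            exact Real.rpow_le_rpow_of_exponent_le (by linarith) (by norm_num)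
    · have h3 : (((Finset.Icc 1 Y).filter (fun p => p.Prime ∧ p ≡ a [MOD e])).card : ℝ) ≤
          (((Finset.Icc 1 Y).filter (fun p => p ≡ a [MOD e])).card : ℝ) := by
        have : (Finset.Icc 1 Y).filter (fun p => p.Prime ∧ p ≡ a [MOD e]) ⊆
            (Finset.Icc 1 Y).filter (fun p => p ≡ a [MOD e]) := by
          intro p hp
          rw [Finset.mem_filter] at hp ⊢
          exact ⟨hp.1, hp.2.2⟩
        exact_mod_cast Finset.card_le_card this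
      have h4 := (abs_le.1 (count_ap Y e a he0)).2
      have h5 : (1 : ℝ) ≤ (Y : ℝ) / e := by
        rw [le_div_iff₀ heR, one_mul]
        exact_mod_cast he.1.2
      have hcount : ((Pr.filter (fun p : ℕ => e ∣ ((p : ℤ) - t).natAbs)).card : ℝ) ≤
          4 * ((Y : ℝ) * (e : ℝ)⁻¹) := by
        rw [← div_eq_mul_inv]
        linarith
      have hYe : (Y : ℝ) ≤ (e : ℝ) ^ 2 := by
        have : Y ≤ e * e := by omega
        have : (Y : ℝ) ≤ ((e * e : ℕ) : ℝ) := by exact_mod_cast this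
        push_cast at this
        nlinarith
      have h7 : (Y : ℝ) ^ (1 / 4 : ℝ) ≤ (e : ℝ) ^ (1 / 2 : ℝ) := by
        have h8 : (Y : ℝ) ^ (1 / 4 : ℝ) ≤ ((e : ℝ) ^ 2) ^ (1 / 4 : ℝ) :=
          Real.rpow_le_rpow (by positivity) hYe (by norm_num)
        have h9 : ((e : ℝ) ^ 2) ^ (1 / 4 : ℝ) = (e : ℝ) ^ (1 / 2 : ℝ) := by
          rw [← Real.rpow_natCast, ← Real.rpow_mul heR.le]
          norm_num
        rwa [h9] at h8
      have hYsplit : (Y : ℝ) = (Y : ℝ) ^ (3 / 4 : ℝ) * (Y : ℝ) ^ (1 / 4 : ℝ) := by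
        rw [← Real.rpow_add (by linarith)]
        norm_num
      have h10 : (Y : ℝ) * (e : ℝ)⁻¹ * (e : ℝ) ^ (-(3 / 4) : ℝ) ≤
          (Y : ℝ) / Real.log Y * (e : ℝ) ^ (-(5 / 4) : ℝ) := by
        calc (Y : ℝ) * (e : ℝ)⁻¹ * (e : ℝ) ^ (-(3 / 4) : ℝ)
            = (Y : ℝ) * (e : ℝ) ^ (-(7 / 4) : ℝ) := by
              rw [mul_assoc, ← Real.rpow_neg_one, ← Real.rpow_add heR]
              norm_num
          _ = (Y : ℝ) ^ (3 / 4 : ℝ) * (Y : ℝ) ^ (1 / 4 : ℝ) * (e : ℝ) ^ (-(7 / 4) : ℝ) := by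
              rw [← hYsplit]
          _ ≤ (Y : ℝ) ^ (3 / 4 : ℝ) * (e : ℝ) ^ (1 / 2 : ℝ) * (e : ℝ) ^ (-(7 / 4) : ℝ) := by
              gcongr
          _ = (Y : ℝ) ^ (3 / 4 : ℝ) * (e : ℝ) ^ (-(5 / 4) : ℝ) := by
              rw [mul_assoc, ← Real.rpow_add heR]
              norm_num
          _ ≤ (Y : ℝ) / Real.log Y * (e : ℝ) ^ (-(5 / 4) : ℝ) := by
              gcongr
      have h11 : 0 ≤ (Y : ℝ) / Real.log Y * (e : ℝ) ^ (-(5 / 4) : ℝ) := by positivity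
      calc ((Pr.filter (fun p : ℕ => e ∣ ((p : ℤ) - t).natAbs)).card : ℝ) * (e : ℝ) ^ (-(3 / 4) : ℝ)
          ≤ 4 * ((Y : ℝ) * (e : ℝ)⁻¹) * (e : ℝ) ^ (-(3 / 4) : ℝ) :=
            mul_le_mul_of_nonneg_right hcount hpow0.le
        _ = 4 * ((Y : ℝ) * (e : ℝ)⁻¹ * (e : ℝ) ^ (-(3 / 4) : ℝ)) := by ring
        _ ≤ 4 * ((Y : ℝ) / Real.log Y * (e : ℝ) ^ (-(5 / 4) : ℝ)) := by linarith
        _ ≤ 20 * ((Y : ℝ) / Real.log Y) * (e : ℝ) ^ (-(5 / 4) : ℝ) := by linarith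
  have h3 := Finset.sum_le_sum h2
  rw [← Finset.mul_sum] at h3
  have hsum : ∑ l ∈ pr Y, (l : ℝ) ^ (-(5 / 4) : ℝ) ≤ S := by
    have hs : Summable (fun n : ℕ => (n : ℝ) ^ (-(5 / 4) : ℝ)) := by
      rw [Real.summable_nat_rpow]
      norm_num
    exact hs.sum_le_tsum (pr Y) (fun n _ => by positivity)
  have h4 : 20 * ((Y : ℝ) / Real.log Y) * ∑ l ∈ pr Y, (l : ℝ) ^ (-(5 / 4) : ℝ) ≤
      20 * ((Y : ℝ) / Real.log Y) * S := mul_le_mul_of_nonneg_left hsum (by positivity)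
  have h5 : 2 * C₁ * ∑ l ∈ pr Y, (∑ p ∈ Pr,
      if l ∣ ((p : ℤ) - t).natAbs then (l : ℝ) ^ (-(3 / 4) : ℝ) else 0) ≤
      2 * C₁ * (20 * ((Y : ℝ) / Real.log Y) * S) :=
    mul_le_mul_of_nonneg_left (h3.trans h4) (by positivity)
  calc (Pr.card : ℝ) * 2 + 2 * C₁ * ∑ l ∈ pr Y, (∑ p ∈ Pr,
      if l ∣ ((p : ℤ) - t).natAbs then (l : ℝ) ^ (-(3 / 4) : ℝ) else 0)
      ≤ (10 * ((Y : ℝ) / Real.log Y)) * 2 + 2 * C₁ * (20 * ((Y : ℝ) / Real.log Y) * S) := by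
        linarith
    _ = (20 + 40 * C₁ * S) * (Y : ℝ) / Real.log Y := by ring

end Pool.Agent.Lib.MP_d9bc60_nt.UP
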