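import Pool.Agent.Lib.MP_d9bc60_nt.UP.U4Avg

/-! Row U5 (about 180 lines): the second moment, uniform in `b`. -/

set_option autoImplicit false

namespace Pool.Agent.Lib.MP_d9bc60_nt.UP

open Finset Pool.Agent.Lib.MP_d9bc60_nt.Sieve

/-- For fixed `p'` and a target value there is at most one `q'`. -/
lemma u5_one (b c : ℤ) (Q : Finset ℕ) (p' : ℕ) (v : ℤ) :
    ((Q.filter (fun q' : ℕ => f b c p' + (q' : ℤ) = v)).card : ℝ) ≤ 1 := by
  have h7 : (Q.filter (fun q' : ℕ => f b c p' + (q' : ℤ) = v)).card ≤ 1 := by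
    rw [Finset.card_le_one]
    intro a ha a' ha'
    rw [Finset.mem_filter] at ha ha'
    have e1 := ha.2
    have e2 := ha'.2
    have : (a : ℤ) = a' := by linarith
    exact_mod_cast this
  exact_mod_cast h7

/-- The generic pair `p, p'`. -/
lemma u5_pair (b c : ℤ) (N : ℕ) (Q : Finset ℕ) (hQ : Q ⊆ QS N)
    (hpp : ∀ h : ℕ, 0 < h → ((((Finset.Icc 1 N).filter (fun p => p.Prime ∧ (p + h).Prime)).card : ℕ) : ℝ) ≤
      1026 * (N : ℝ) / (Real.log N) ^ 2 * (rphi h) ^ 2)
    (p p' : ℕ) (h1 : ¬ p' = p) (h2 : ¬ (p' : ℤ) = -(p + b)) :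
    ∑ q ∈ Q, ((Q.filter (fun q' : ℕ => f b c p' + (q' : ℤ) = g b c (p, q))).card : ℝ) ≤
      (1026 * (N : ℝ) / (Real.log N) ^ 2) *
            ((1 / 2) * ((rphi ((p' : ℤ) - p).natAbs) ^ 4 +
              (rphi ((p' : ℤ) - (-(p + b))).natAbs) ^ 4)) := by
  classical
  set D : ℤ := f b c p - f b c p' with hD
  have hfac : D = ((p' : ℤ) - p) * (-((p' : ℤ) - (-(p + b)))) := by
    rw [hD]; unfold f; ring
  have hu : ((p' : ℤ) - p) ≠ 0 := by
    intro h
    apply h1
    have : (p' : ℤ) = p := by linarith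
    exact_mod_cast this
  have hv : ((p' : ℤ) - (-(p + b))) ≠ 0 := by
    intro h
    apply h2
    linarith
  have hD0 : D ≠ 0 := by
    rw [hfac]
    exact mul_ne_zero hu (neg_ne_zero.2 hv)
  have hDabs : D.natAbs = ((p' : ℤ) - p).natAbs * ((p' : ℤ) - (-(p + b))).natAbs := by
    rw [hfac, Int.natAbs_mul, Int.natAbs_neg]
  have h8 : ∑ q ∈ Q,
      ((Q.filter (fun q' : ℕ => f b c p' + (q' : ℤ) = g b c (p, q))).card : ℝ) =
      (((Q ×ˢ Q).filter (fun x => (x.2 : ℤ) - x.1 = D)).card : ℝ) := by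
    have : ∑ q ∈ Q,
      (Q.filter (fun q' : ℕ => f b c p' + (q' : ℤ) = g b c (p, q))).card =
      ((Q ×ˢ Q).filter (fun x => (x.2 : ℤ) - x.1 = D)).card := by
      rw [Finset.card_filter, Finset.sum_product]
      apply Finset.sum_congr rfl
      intro q _
      rw [Finset.card_filter]
      apply Finset.sum_congr rfl
      intro q' _
      have : (f b c p' + (q' : ℤ) = g b c (p, q)) ↔ ((q' : ℤ) - q = D) := by
        rw [hD]; unfold g
        constructor
        · intro h; simp only at h; linarith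
        · intro h; simp only; linarith
      simp only [this]
    exact_mod_cast this
  rw [h8]
  have h8' : (((Q ×ˢ Q).filter (fun x => (x.2 : ℤ) - x.1 = D)).card : ℝ) ≤
      ((((QS N) ×ˢ (QS N)).filter (fun x => (x.2 : ℤ) - x.1 = D)).card : ℝ) := by
    have : ((Q ×ˢ Q).filter (fun x => (x.2 : ℤ) - x.1 = D)).card ≤
        (((QS N) ×ˢ (QS N)).filter (fun x => (x.2 : ℤ) - x.1 = D)).card :=
      Finset.card_le_card (Finset.filter_subset_filter _ (Finset.product_subset_product hQ hQ))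
    exact_mod_cast this
  refine h8'.trans ?_
  have h9 : ((((QS N) ×ˢ (QS N)).filter (fun x => (x.2 : ℤ) - x.1 = D)).card : ℝ) ≤
      (((Finset.Icc 1 N).filter (fun p => p.Prime ∧ (p + D.natAbs).Prime)).card : ℝ) := by
    exact_mod_cast pair_card N D hD0
  refine h9.trans ?_
  refine (hpp D.natAbs (Int.natAbs_pos.2 hD0)).trans ?_
  rw [hDabs]
  apply mul_le_mul_of_nonneg_left _ (by positivity)
  exact rphi_sq_le _ _ (Int.natAbs_pos.2 hu) (Int.natAbs_pos.2 hv)

/-- Proof. Adapt `second_moment` (`SecondMoment.lean`), from the line `h4` on, with `PS Y` replaced by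
`QS Y` (odd primes up to `Y`), the second factor `QS N` by `Q ⊆ QS N`. For fixed `p, p'` with
`p' ≠ p` and `p' + p + b ≠ 0`: the number of `(q, q') ∈ Q²` with `q' - q = f(p) - f(p')` is at most the
number for `QS N` (`pair_card`, `pp`, `rphi_sq_le`). If `p' = p` or `p' = -(p + b)`: for each `q` at most
one `q'`, so at most `|Q|` (this gives the factor `2`). The averages: `avg_big` for `t = p` and
`t = -(p + b)`, `|t| + Y ≤ |b| + 3Y`. -/
theorem second_le : ∃ C : ℝ, 0 < C ∧ ∃ M₀ : ℕ, 2 ≤ M₀ ∧ ∀ Y N : ℕ, M₀ ≤ Y → M₀ ≤ N → ∀ b c : ℤ,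
    ((|b| : ℤ) : ℝ) + 3 * Y ≤ Real.exp Y → ∀ Q ⊆ QS N,
    ∑ x ∈ (QS Y) ×ˢ Q, ((((QS Y) ×ˢ Q).filter (fun y => g b c y = g b c x)).card : ℝ) ≤
      2 * ((QS Y).card * Q.card) +
        (QS Y).card * (C * ((N : ℝ) / (Real.log N) ^ 2) * ((Y : ℝ) / Real.log Y)) := by
  classical
  obtain ⟨N₁, hN₁, hpp⟩ := pp
  obtain ⟨C, hC, N₂, hN₂, havg⟩ := avg_big
  refine ⟨1026 * C, by positivity, max N₁ N₂, hN₁.trans (le_max_left _ _), ?_⟩
  intro Y N hY hN b c hb Q hQ
  have hN1 : N₁ ≤ N := (le_max_left _ _).trans hN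
  have hY2 : N₂ ≤ Y := (le_max_right _ _).trans hY
  have hY0 : (0 : ℝ) ≤ Y := by positivity
  have hb0 : (0 : ℝ) ≤ ((|b| : ℤ) : ℝ) := by exact_mod_cast abs_nonneg b
  set T := (QS Y) ×ˢ Q with hT
  have h4 : ∀ x ∈ T, ((T.filter (fun y => g b c y = g b c x)).card : ℝ) =
      ∑ p' ∈ QS Y, ((Q.filter (fun q' : ℕ => f b c p' + (q' : ℤ) = g b c x)).card : ℝ) := by
    intro x _
    have : (T.filter (fun y => g b c y = g b c x)).card =
        ∑ p' ∈ QS Y, (Q.filter (fun q' : ℕ => f b c p' + (q' : ℤ) = g b c x)).card := by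
      rw [Finset.card_filter, hT, Finset.sum_product]
      apply Finset.sum_congr rfl
      intro p' _
      rw [Finset.card_filter]
      rfl
    exact_mod_cast this
  rw [Finset.sum_congr rfl h4, hT, Finset.sum_product]
  have h5 : ∀ p ∈ QS Y, ∑ q ∈ Q, ∑ p' ∈ QS Y,
      ((Q.filter (fun q' : ℕ => f b c p' + (q' : ℤ) = g b c (p, q))).card : ℝ) ≤
      2 * Q.card + (1026 * (N : ℝ) / (Real.log N) ^ 2) * (C * (Y : ℝ) / Real.log Y) := by
    intro p hp
    have hp' := hp
    rw [QS, Finset.mem_filter, Finset.mem_Icc] at hp'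
    rw [Finset.sum_comm]
    have h6 : ∀ p' ∈ QS Y, ∑ q ∈ Q,
        ((Q.filter (fun q' : ℕ => f b c p' + (q' : ℤ) = g b c (p, q))).card : ℝ) ≤
        ((if p' = p then (Q.card : ℝ) else 0) +
          (if (p' : ℤ) = -(p + b) then (Q.card : ℝ) else 0)) +
          (if p' = p ∨ (p' : ℤ) = -(p + b) then 0 else (1026 * (N : ℝ) / (Real.log N) ^ 2) *
            ((1 / 2) * ((rphi ((p' : ℤ) - p).natAbs) ^ 4 +
              (rphi ((p' : ℤ) - (-(p + b))).natAbs) ^ 4))) := by
      intro p' hp1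
      have hone : ∑ q ∈ Q,
          ((Q.filter (fun q' : ℕ => f b c p' + (q' : ℤ) = g b c (p, q))).card : ℝ) ≤ Q.card := by
        refine (Finset.sum_le_sum (fun q _ => u5_one b c Q p' (g b c (p, q)))).trans ?_
        simp
      by_cases e1 : p' = p
      · rw [if_pos e1, if_pos (Or.inl e1)]
        have : (0 : ℝ) ≤ (if (p' : ℤ) = -(p + b) then (Q.card : ℝ) else 0) := by
          by_cases h : (p' : ℤ) = -(p + b)
          · rw [if_pos h]; exact Nat.cast_nonneg _
          · rw [if_neg h]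
        linarith
      · by_cases e2 : (p' : ℤ) = -(p + b)
        · rw [if_neg e1, if_pos e2, if_pos (Or.inr e2)]
          linarith
        · rw [if_neg e1, if_neg e2, if_neg (by tauto), zero_add, zero_add]
          exact u5_pair b c N Q hQ (hpp N hN1) p p' e1 e2
    refine (Finset.sum_le_sum h6).trans ?_
    rw [Finset.sum_add_distrib, Finset.sum_add_distrib]
    have h10 : ∑ p' ∈ QS Y, (if p' = p then (Q.card : ℝ) else 0) ≤ Q.card := by
      rw [Finset.sum_ite_eq']
      rw [if_pos hp]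
    have h10' : ∑ p' ∈ QS Y, (if (p' : ℤ) = -(p + b) then (Q.card : ℝ) else 0) ≤ Q.card := by
      rw [← Finset.sum_filter, Finset.sum_const, nsmul_eq_mul]
      have hc1 : ((QS Y).filter (fun p' : ℕ => (p' : ℤ) = -(p + b))).card ≤ 1 := by
        rw [Finset.card_le_one]
        intro a ha a' ha'
        rw [Finset.mem_filter] at ha ha'
        have e1 := ha.2
        have e2 := ha'.2
        have : (a : ℤ) = a' := by rw [e1, e2]
        exact_mod_cast this
      have hc2 : (((QS Y).filter (fun p' : ℕ => (p' : ℤ) = -(p + b))).card : ℝ) ≤ 1 := by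
        exact_mod_cast hc1
      have hq0 : (0 : ℝ) ≤ Q.card := by positivity
      nlinarith
    have h11 : ∑ p' ∈ QS Y, (if p' = p ∨ (p' : ℤ) = -(p + b) then 0 else
          (1026 * (N : ℝ) / (Real.log N) ^ 2) *
            ((1 / 2) * ((rphi ((p' : ℤ) - p).natAbs) ^ 4 +
              (rphi ((p' : ℤ) - (-(p + b))).natAbs) ^ 4))) ≤
        (1026 * (N : ℝ) / (Real.log N) ^ 2) * (C * (Y : ℝ) / Real.log Y) := by
      have hpY : (p : ℝ) ≤ Y := by exact_mod_cast hp'.1.2
      have hA : ∑ p' ∈ (QS Y).filter (fun p' : ℕ => ¬ (p' = p ∨ (p' : ℤ) = -(p + b))),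
          (rphi ((p' : ℤ) - p).natAbs) ^ 4 ≤ C * (Y : ℝ) / Real.log Y := by
        refine le_trans ?_ (havg Y hY2 (p : ℤ) ?_)
        · apply Finset.sum_le_sum_of_subset_of_nonneg
          · intro p' hp1
            rw [Finset.mem_filter, QS, Finset.mem_filter] at hp1
            rw [Finset.mem_filter]
            refine ⟨hp1.1.1, hp1.1.2.1, ?_⟩
            intro h
            exact hp1.2 (Or.inl (by exact_mod_cast h))
          · intro _ _ _
            have := rphi_nonneg
            positivity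
        · have e1 : ((|(p : ℤ)| : ℤ) : ℝ) = p := by
            rw [abs_of_nonneg (by positivity)]; norm_cast
          rw [e1]
          linarith
      have hB : ∑ p' ∈ (QS Y).filter (fun p' : ℕ => ¬ (p' = p ∨ (p' : ℤ) = -(p + b))),
          (rphi ((p' : ℤ) - (-(p + b))).natAbs) ^ 4 ≤ C * (Y : ℝ) / Real.log Y := by
        refine le_trans ?_ (havg Y hY2 (-((p : ℤ) + b)) ?_)
        · apply Finset.sum_le_sum_of_subset_of_nonneg
          · intro p' hp1
            rw [Finset.mem_filter, QS, Finset.mem_filter] at hp1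
            rw [Finset.mem_filter]
            refine ⟨hp1.1.1, hp1.1.2.1, ?_⟩
            intro h
            exact hp1.2 (Or.inr h)
          · intro _ _ _
            have := rphi_nonneg
            positivity
        · have e1 : ((|(-((p : ℤ) + b))| : ℤ) : ℝ) ≤ p + ((|b| : ℤ) : ℝ) := by
            have e2 : |(-((p : ℤ) + b))| ≤ (p : ℤ) + |b| := by
              rw [abs_neg]
              refine (abs_add_le _ _).trans ?_
              rw [abs_of_nonneg (by positivity : (0 : ℤ) ≤ (p : ℤ))]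
            have e3 : ((|(-((p : ℤ) + b))| : ℤ) : ℝ) ≤ (((p : ℤ) + |b| : ℤ) : ℝ) := by
              exact_mod_cast e2
            rw [Int.cast_add, Int.cast_natCast] at e3
            exact e3
          linarith
      have h17 : ∑ p' ∈ QS Y, (if p' = p ∨ (p' : ℤ) = -(p + b) then 0 else
          (1026 * (N : ℝ) / (Real.log N) ^ 2) *
            ((1 / 2) * ((rphi ((p' : ℤ) - p).natAbs) ^ 4 +
              (rphi ((p' : ℤ) - (-(p + b))).natAbs) ^ 4))) =
          (1026 * (N : ℝ) / (Real.log N) ^ 2) * ((1 / 2) *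
            (∑ p' ∈ (QS Y).filter (fun p' : ℕ => ¬ (p' = p ∨ (p' : ℤ) = -(p + b))),
                (rphi ((p' : ℤ) - p).natAbs) ^ 4 +
              ∑ p' ∈ (QS Y).filter (fun p' : ℕ => ¬ (p' = p ∨ (p' : ℤ) = -(p + b))),
                (rphi ((p' : ℤ) - (-(p + b))).natAbs) ^ 4)) := by
        rw [← Finset.sum_add_distrib, Finset.mul_sum, Finset.mul_sum, Finset.sum_filter]
        apply Finset.sum_congr rfl
        intro p' _
        by_cases hpp' : p' = p ∨ (p' : ℤ) = -(p + b)
        · rw [if_pos hpp', if_neg (not_not.2 hpp')]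
        · rw [if_neg hpp', if_pos hpp']
      rw [h17]
      apply mul_le_mul_of_nonneg_left _ (by positivity)
      linarith
    linarith
  refine (Finset.sum_le_sum h5).trans ?_
  rw [Finset.sum_const, nsmul_eq_mul]
  apply le_of_eq
  ring

end Pool.Agent.Lib.MP_d9bc60_nt.UP
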