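import Mathlib

/-! Row U6 (about 60 lines): Paley–Zygmund for a finite map. -/

set_option autoImplicit false

namespace Pool.Agent.Lib.MP_d9bc60_nt.UP

open Finset

/-- Proof. `r(n) = #{x ∈ T : g x = n}`, `W` = the filter on the right. `∑_{n ∈ V} r(n) = |T|`
(`Finset.card_eq_sum_card_fiberwise`). `∑_{n ∈ V \ W} r(n) ≤ |V| |T|/(2|V|) = |T|/2` (if `V = ∅` then
`T = ∅`), so `∑_W r ≥ |T|/2`; Cauchy–Schwarz (`sq_sum_le_card_mul_sum_sq`) and
`∑_{n ∈ V} r(n)² = ∑_{x ∈ T} #{y ∈ T : g y = g x} ≤ E`. -/
theorem paley {α : Type} [DecidableEq α] (T : Finset α) (g : α → ℤ) (V : Finset ℤ)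
    (hV : ∀ x ∈ T, g x ∈ V) (E : ℝ)
    (hE : ∑ x ∈ T, ((T.filter (fun y => g y = g x)).card : ℝ) ≤ E) :
    ((T.card : ℝ)) ^ 2 ≤
      4 * ((V.filter (fun n => T.card ≤ 2 * V.card * (T.filter (fun x => g x = n)).card)).card : ℝ) *
        E := by
  classical
  have hsum : T.card = ∑ n ∈ V, (T.filter (fun x => g x = n)).card :=
    Finset.card_eq_sum_card_fiberwise hV
  have hsplit : ∑ n ∈ V, (T.filter (fun x => g x = n)).card =
      (∑ n ∈ V.filter (fun n => T.card ≤ 2 * V.card * (T.filter (fun x => g x = n)).card),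
        (T.filter (fun x => g x = n)).card) +
      ∑ n ∈ V.filter (fun n => ¬ T.card ≤ 2 * V.card * (T.filter (fun x => g x = n)).card),
        (T.filter (fun x => g x = n)).card :=
    (Finset.sum_filter_add_sum_filter_not V _ _).symm
  have hsmall : 2 * V.card *
      ∑ n ∈ V.filter (fun n => ¬ T.card ≤ 2 * V.card * (T.filter (fun x => g x = n)).card),
        (T.filter (fun x => g x = n)).card ≤ V.card * T.card := by
    rw [Finset.mul_sum]
    calc ∑ n ∈ V.filter (fun n => ¬ T.card ≤ 2 * V.card * (T.filter (fun x => g x = n)).card),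
          2 * V.card * (T.filter (fun x => g x = n)).card
        ≤ ∑ n ∈ V.filter (fun n => ¬ T.card ≤ 2 * V.card * (T.filter (fun x => g x = n)).card),
          T.card := by
          refine Finset.sum_le_sum fun n hn => ?_
          have := (Finset.mem_filter.1 hn).2
          omega
      _ = (V.filter (fun n => ¬ T.card ≤ 2 * V.card *
            (T.filter (fun x => g x = n)).card)).card * T.card := by
          rw [Finset.sum_const, smul_eq_mul]
      _ ≤ V.card * T.card := Nat.mul_le_mul_right _ (Finset.card_filter_le _ _)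
  have hhalf : T.card ≤ 2 *
      ∑ n ∈ V.filter (fun n => T.card ≤ 2 * V.card * (T.filter (fun x => g x = n)).card),
        (T.filter (fun x => g x = n)).card := by
    rcases Nat.eq_zero_or_pos V.card with h0 | hpos
    · have hVe : V = ∅ := Finset.card_eq_zero.1 h0
      have hTe : T = ∅ := by
        refine Finset.eq_empty_of_forall_notMem fun x hx => ?_
        have := hV x hx
        rw [hVe] at this
        exact absurd this (Finset.notMem_empty _)
      rw [hTe]
      simp
    · have h1 : 2 *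
          ∑ n ∈ V.filter (fun n => ¬ T.card ≤ 2 * V.card * (T.filter (fun x => g x = n)).card),
            (T.filter (fun x => g x = n)).card ≤ T.card := by
        have h2 : V.card * (2 *
            ∑ n ∈ V.filter (fun n => ¬ T.card ≤ 2 * V.card * (T.filter (fun x => g x = n)).card),
              (T.filter (fun x => g x = n)).card) ≤ V.card * T.card := by
          calc _ = 2 * V.card *
            ∑ n ∈ V.filter (fun n => ¬ T.card ≤ 2 * V.card * (T.filter (fun x => g x = n)).card),
              (T.filter (fun x => g x = n)).card := by ring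
            _ ≤ _ := hsmall
        exact Nat.le_of_mul_le_mul_left h2 hpos
      have h3 := hsum
      rw [hsplit] at h3
      omega
  have hsq : ∑ n ∈ V, ((T.filter (fun x => g x = n)).card : ℝ) ^ 2 ≤ E := by
    refine le_trans (le_of_eq ?_) hE
    rw [← Finset.sum_fiberwise_of_maps_to hV
      (fun x => ((T.filter (fun y => g y = g x)).card : ℝ))]
    refine Finset.sum_congr rfl fun n _ => ?_
    have : ∀ x ∈ T.filter (fun x => g x = n),
        ((T.filter (fun y => g y = g x)).card : ℝ) = ((T.filter (fun y => g y = n)).card : ℝ) := by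
      intro x hx
      rw [(Finset.mem_filter.1 hx).2]
    rw [Finset.sum_congr rfl this, Finset.sum_const, nsmul_eq_mul, sq]
  set W := V.filter (fun n => T.card ≤ 2 * V.card * (T.filter (fun x => g x = n)).card) with hW
  have hcs : (∑ n ∈ W, ((T.filter (fun x => g x = n)).card : ℝ)) ^ 2 ≤
      (W.card : ℝ) * ∑ n ∈ W, ((T.filter (fun x => g x = n)).card : ℝ) ^ 2 :=
    sq_sum_le_card_mul_sum_sq
  have hWV : ∑ n ∈ W, ((T.filter (fun x => g x = n)).card : ℝ) ^ 2 ≤ E :=
    le_trans (Finset.sum_le_sum_of_subset_of_nonneg (Finset.filter_subset _ _)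
      (fun n _ _ => sq_nonneg _)) hsq
  have hhalfR : (T.card : ℝ) ≤ 2 * ∑ n ∈ W, ((T.filter (fun x => g x = n)).card : ℝ) := by
    exact_mod_cast hhalf
  calc (T.card : ℝ) ^ 2
      ≤ (2 * ∑ n ∈ W, ((T.filter (fun x => g x = n)).card : ℝ)) ^ 2 :=
        pow_le_pow_left₀ (Nat.cast_nonneg _) hhalfR 2
    _ = 4 * (∑ n ∈ W, ((T.filter (fun x => g x = n)).card : ℝ)) ^ 2 := by ring
    _ ≤ 4 * ((W.card : ℝ) * ∑ n ∈ W, ((T.filter (fun x => g x = n)).card : ℝ) ^ 2) :=
        mul_le_mul_of_nonneg_left hcs (by norm_num)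
    _ ≤ 4 * ((W.card : ℝ) * E) :=
        mul_le_mul_of_nonneg_left (mul_le_mul_of_nonneg_left hWV (Nat.cast_nonneg _)) (by norm_num)
    _ = 4 * (W.card : ℝ) * E := by ring

end Pool.Agent.Lib.MP_d9bc60_nt.UP
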