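import Pool.Agent.Lib.MP_d9bc60_nt.UP.U0Defs
import Pool.Agent.Lib.MP_d9bc60_nt.ImageLarge

/-! Row U7a (about 80 lines): Chebyshev estimates for the parameters. -/

set_option autoImplicit false

namespace Pool.Agent.Lib.MP_d9bc60_nt.UP

open Finset Pool.Agent.Lib.MP_d9bc60_nt.Sieve

theorem u7a_QS_le (w : ℕ) : (QS w).card ≤ Nat.primeCounting w := by
  rw [Nat.primeCounting, Nat.primeCounting', Nat.count_eq_card_filter_range]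
  refine Finset.card_le_card ?_
  intro p hp
  rw [QS, Finset.mem_filter, Finset.mem_Icc] at hp
  rw [Finset.mem_filter, Finset.mem_range]
  exact ⟨by omega, hp.2.1⟩

/-- Proof. `QS_card` for `w = ⌊P⌋₊ ≥ P/2`, `log w ≤ log P`. Upper: `Chebyshev.eventually_primeCounting_le`
(or `bt` with `q = 1`). -/
theorem card_QS : ∃ P₀ : ℝ, 2 ≤ P₀ ∧ ∀ P : ℝ, P₀ ≤ P →
    (1 / 4) * (P / Real.log P) ≤ ((QS ⌊P⌋₊).card : ℝ) ∧
      ((QS ⌊P⌋₊).card : ℝ) ≤ 10 * (P / Real.log P) ∧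
      (Nat.primeCounting ⌊P⌋₊ : ℝ) ≤ 10 * (P / Real.log P) := by
  have h1 := Chebyshev.eventually_primeCounting_le (ε := 1) one_pos
  have h2 : ∀ᶠ P : ℝ in Filter.atTop, (1 / 2) * ((⌊P⌋₊ : ℕ) : ℝ) / Real.log (⌊P⌋₊ : ℕ) ≤ ((QS ⌊P⌋₊).card : ℝ) :=
    tendsto_nat_floor_atTop.eventually QS_card
  obtain ⟨P₁, hP₁⟩ := Filter.eventually_atTop.1 (h1.and h2)
  refine ⟨max P₁ 4, le_trans (by norm_num) (le_max_right _ _), fun P hP => ?_⟩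
  obtain ⟨g1, g2⟩ := hP₁ P ((le_max_left _ _).trans hP)
  have hP4 : 4 ≤ P := (le_max_right _ _).trans hP
  have hlog : 0 < Real.log P := Real.log_pos (by linarith)
  have hlog4 : Real.log 4 + 1 ≤ 10 := by
    have : Real.log 4 ≤ 4 - 1 := Real.log_le_sub_one_of_pos (by norm_num)
    linarith
  have e1 : (Nat.primeCounting ⌊P⌋₊ : ℝ) ≤ 10 * (P / Real.log P) := by
    refine g1.trans ?_
    rw [mul_div_assoc]
    exact mul_le_mul_of_nonneg_right hlog4 (by positivity)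
  refine ⟨?_, ?_, e1⟩
  · refine le_trans ?_ g2
    have hfl : P - 1 < (⌊P⌋₊ : ℕ) := Nat.sub_one_lt_floor P
    have hfl2 : ((⌊P⌋₊ : ℕ) : ℝ) ≤ P := Nat.floor_le (by linarith)
    have hw : (1 : ℝ) < (⌊P⌋₊ : ℕ) := by linarith
    have hlw : 0 < Real.log ((⌊P⌋₊ : ℕ) : ℝ) := Real.log_pos hw
    have hlw2 : Real.log ((⌊P⌋₊ : ℕ) : ℝ) ≤ Real.log P := Real.log_le_log (by linarith) hfl2
    calc (1 / 4) * (P / Real.log P) = (1 / 2) * (P / 2) / Real.log P := by ring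
      _ ≤ (1 / 2) * ((⌊P⌋₊ : ℕ) : ℝ) / Real.log P :=
          div_le_div_of_nonneg_right (by linarith) hlog.le
      _ ≤ (1 / 2) * ((⌊P⌋₊ : ℕ) : ℝ) / Real.log (⌊P⌋₊ : ℕ) :=
          div_le_div_of_nonneg_left (by positivity) hlw hlw2
  · refine le_trans ?_ e1
    exact_mod_cast u7a_QS_le _

theorem u7a_half_log {x y : ℝ} (hx : 9 ≤ x) (hy : x / 3 ≤ y) : Real.log x / 2 ≤ Real.log y := by
  have h1 : Real.sqrt x ≤ x / 3 := by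
    rw [Real.sqrt_le_left (by linarith)]
    nlinarith
  have h2 : Real.log (Real.sqrt x) = Real.log x / 2 := Real.log_sqrt (by linarith)
  rw [← h2]
  exact Real.log_le_log (Real.sqrt_pos.2 (by linarith)) (h1.trans hy)

/-- Proof. `X/3 ≤ N ≤ X/2`, `log N ≥ (log X)/2`; `Y = ⌊P⌋₊ ≤ P`, `Y ≥ P/2`, `log Y ≥ (log P)/2`
(`P ≥ P₀`). -/
theorem second_param : ∃ X₀ : ℝ, 2 ≤ X₀ ∧ ∀ X P : ℝ, X₀ ≤ X → X₀ ≤ P →
    ((⌊X / 2⌋₊ : ℕ) : ℝ) / (Real.log (⌊X / 2⌋₊ : ℕ)) ^ 2 * (((⌊P⌋₊ : ℕ) : ℝ) / Real.log (⌊P⌋₊ : ℕ)) ≤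
      4 * (X / (Real.log X) ^ 2) * (P / Real.log P) := by
  refine ⟨9, by norm_num, fun X P hX hP => ?_⟩
  have hN1 : ((⌊X / 2⌋₊ : ℕ) : ℝ) ≤ X / 2 := Nat.floor_le (by linarith)
  have hN2 : X / 2 - 1 < (⌊X / 2⌋₊ : ℕ) := Nat.sub_one_lt_floor _
  have hY1 : ((⌊P⌋₊ : ℕ) : ℝ) ≤ P := Nat.floor_le (by linarith)
  have hY2 : P - 1 < (⌊P⌋₊ : ℕ) := Nat.sub_one_lt_floor _
  have hlX : 0 < Real.log X := Real.log_pos (by linarith)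
  have hlP : 0 < Real.log P := Real.log_pos (by linarith)
  have hlN := u7a_half_log hX (y := ((⌊X / 2⌋₊ : ℕ) : ℝ)) (by linarith)
  have hlY := u7a_half_log hP (y := ((⌊P⌋₊ : ℕ) : ℝ)) (by linarith)
  have a1 : ((⌊X / 2⌋₊ : ℕ) : ℝ) / (Real.log (⌊X / 2⌋₊ : ℕ)) ^ 2 ≤ 2 * (X / (Real.log X) ^ 2) := by
    calc ((⌊X / 2⌋₊ : ℕ) : ℝ) / (Real.log (⌊X / 2⌋₊ : ℕ)) ^ 2 ≤ (X / 2) / (Real.log X / 2) ^ 2 :=
          div_le_div₀ (by linarith) hN1 (by positivity) (pow_le_pow_left₀ (by positivity) hlN 2)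
      _ = 2 * (X / (Real.log X) ^ 2) := by
          field_simp
  have a2 : ((⌊P⌋₊ : ℕ) : ℝ) / Real.log (⌊P⌋₊ : ℕ) ≤ 2 * (P / Real.log P) := by
    calc ((⌊P⌋₊ : ℕ) : ℝ) / Real.log (⌊P⌋₊ : ℕ) ≤ P / (Real.log P / 2) :=
          div_le_div₀ (by linarith) hY1 (by positivity) hlY
      _ = 2 * (P / Real.log P) := by
          field_simp
  have a3 : 0 ≤ ((⌊P⌋₊ : ℕ) : ℝ) / Real.log (⌊P⌋₊ : ℕ) :=
    div_nonneg (Nat.cast_nonneg _) (by linarith)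
  calc ((⌊X / 2⌋₊ : ℕ) : ℝ) / (Real.log (⌊X / 2⌋₊ : ℕ)) ^ 2 * (((⌊P⌋₊ : ℕ) : ℝ) / Real.log (⌊P⌋₊ : ℕ))
      ≤ (2 * (X / (Real.log X) ^ 2)) * (2 * (P / Real.log P)) := mul_le_mul a1 a2 a3 (by positivity)
    _ = 4 * (X / (Real.log X) ^ 2) * (P / Real.log P) := by ring

end Pool.Agent.Lib.MP_d9bc60_nt.UP
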