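import Pool.Agent.Lib.MP_d9bc60_nt.UP.U0Defs
import Pool.Agent.Lib.MP_d9bc60_nt.UP.U7aParam

/-! Row U7b (about 80 lines): Chebyshev estimates for the parameters. -/

set_option autoImplicit false

namespace Pool.Agent.Lib.MP_d9bc60_nt.UP

open Finset Pool.Agent.Lib.MP_d9bc60_nt.Sieve

/-- Proof. As in `image_large`: `|QS ⌊X/2⌋| ≥ (1/2) (X/3)/log X`, and the primes `≤ X/50` number at most
`2 (X/50)/log(X/50) ≤ X/(24 log X)` (`Chebyshev.eventually_primeCounting_le` with `ε = 1/10`,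
`log 4 + 1/10 ≤ 1.5`, `log(X/50) ≥ (3/4) log X`). Upper: `card_QS` at `X/2`. -/
theorem card_QX : ∃ X₀ : ℝ, 2 ≤ X₀ ∧ ∀ X : ℝ, X₀ ≤ X →
    (1 / 8) * (X / Real.log X) ≤ ((QX X).card : ℝ) ∧
      ((QX X).card : ℝ) ≤ 10 * (X / Real.log X) := by
  obtain ⟨P₀, hP₀, hcard⟩ := card_QS
  have hQ := (tendsto_nat_floor_atTop.comp
    (Filter.tendsto_id.atTop_div_const (show (0 : ℝ) < 2 by norm_num))).eventually QS_card
  have hpc := (Filter.tendsto_id.atTop_div_const (show (0 : ℝ) < 50 by norm_num)).eventually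
    (Chebyshev.eventually_primeCounting_le (show (0 : ℝ) < 1 / 10 by norm_num))
  obtain ⟨A, hA⟩ := Filter.eventually_atTop.1 (hQ.and hpc)
  refine ⟨max (max A (2 * P₀)) (50 ^ 4), (by norm_num : (2 : ℝ) ≤ 50 ^ 4).trans (le_max_right _ _), ?_⟩
  intro X hX
  have hXA : A ≤ X := ((le_max_left _ _).trans (le_max_left _ _)).trans hX
  have hXP : 2 * P₀ ≤ X := ((le_max_right _ _).trans (le_max_left _ _)).trans hX
  have hX5 : (50 : ℝ) ^ 4 ≤ X := (le_max_right _ _).trans hX
  have hX0 : 0 < X := lt_of_lt_of_le (by norm_num) hX5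
  obtain ⟨h1, h2⟩ := hA X hXA
  simp only [Function.comp, id] at h1 h2
  have hlog50 : 4 * Real.log 50 ≤ Real.log X := by
    have := Real.log_le_log (by norm_num) hX5
    rw [Real.log_pow] at this
    exact_mod_cast this
  have hl50 : 0 < Real.log 50 := Real.log_pos (by norm_num)
  have hL : 0 < Real.log X := by linarith
  have hl2 : Real.log 2 ≤ Real.log 50 := Real.log_le_log (by norm_num) (by norm_num)
  have hX1 : 0 < X / Real.log X := by positivity
  have hfl : ((⌊X / 2⌋₊ : ℕ) : ℝ) ≤ X / 2 := Nat.floor_le (by linarith)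
  have hfl2 : X / 3 ≤ ((⌊X / 2⌋₊ : ℕ) : ℝ) := by
    have := Nat.lt_floor_add_one (X / 2)
    linarith
  constructor
  · -- lower bound
    have hlow : (1 / 6) * (X / Real.log X) ≤ ((QS ⌊X / 2⌋₊).card : ℝ) := by
      refine le_trans ?_ h1
      have hw0 : (1 : ℝ) < ((⌊X / 2⌋₊ : ℕ) : ℝ) := by linarith
      have hlw : Real.log ((⌊X / 2⌋₊ : ℕ) : ℝ) ≤ Real.log X :=
        Real.log_le_log (by linarith) (by linarith)
      have hlw0 : 0 < Real.log ((⌊X / 2⌋₊ : ℕ) : ℝ) := Real.log_pos hw0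
      calc (1 / 6) * (X / Real.log X) = (1 / 2) * (X / 3) / Real.log X := by ring
        _ ≤ (1 / 2) * ((⌊X / 2⌋₊ : ℕ) : ℝ) / Real.log X := by gcongr
        _ ≤ (1 / 2) * ((⌊X / 2⌋₊ : ℕ) : ℝ) / Real.log ((⌊X / 2⌋₊ : ℕ) : ℝ) := by
            apply div_le_div_of_nonneg_left (by positivity) hlw0 hlw
    have hsub : (QS ⌊X / 2⌋₊).card ≤ (QX X).card + Nat.primeCounting ⌊X / 50⌋₊ := by
      have h3 : QS ⌊X / 2⌋₊ ⊆ QX X ∪ Nat.primesLE ⌊X / 50⌋₊ := by
        intro q hq
        rw [Finset.mem_union]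
        by_cases h : X / 50 < (q : ℝ)
        · left
          rw [QX, Finset.mem_filter]
          exact ⟨hq, h⟩
        · right
          rw [Nat.mem_primesLE]
          rw [QS, Finset.mem_filter] at hq
          exact ⟨Nat.le_floor (by linarith), hq.2.1⟩
      have h4 := (Finset.card_le_card h3).trans (Finset.card_union_le _ _)
      rw [Nat.primesLE_card_eq_primeCounting] at h4
      exact h4
    have hsub' : ((QS ⌊X / 2⌋₊).card : ℝ) ≤ ((QX X).card : ℝ) + (Nat.primeCounting ⌊X / 50⌋₊ : ℝ) := by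
      exact_mod_cast hsub
    have hlog4 : Real.log 4 + 1 / 10 ≤ 1.5 := by
      have h5 : Real.log 4 = 2 * Real.log 2 := by
        rw [show (4 : ℝ) = 2 ^ 2 by norm_num, Real.log_pow]
        norm_num
      have h6 := Real.log_two_lt_d9
      rw [h5]
      linarith
    have hl3 : (3 / 4) * Real.log X ≤ Real.log (X / 50) := by
      rw [Real.log_div hX0.ne' (by norm_num)]
      linarith
    have hpi : (Nat.primeCounting ⌊X / 50⌋₊ : ℝ) ≤ (1 / 25) * (X / Real.log X) := by
      refine h2.trans ?_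
      calc (Real.log 4 + 1 / 10) * (X / 50) / Real.log (X / 50)
          ≤ 1.5 * (X / 50) / ((3 / 4) * Real.log X) := by
            gcongr
        _ = (1 / 25) * (X / Real.log X) := by
            field_simp
            norm_num
    linarith
  · have h3 := (hcard (X / 2) (by linarith)).2.1
    have h4 : ((QX X).card : ℝ) ≤ ((QS ⌊X / 2⌋₊).card : ℝ) := by
      exact_mod_cast Finset.card_le_card (Finset.filter_subset _ _)
    refine h4.trans (h3.trans ?_)
    have hl3 : (1 / 2) * Real.log X ≤ Real.log (X / 2) := by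
      rw [Real.log_div hX0.ne' (by norm_num)]
      linarith
    calc 10 * (X / 2 / Real.log (X / 2)) ≤ 10 * (X / 2 / ((1 / 2) * Real.log X)) := by gcongr
      _ = 10 * (X / Real.log X) := by field_simp

end Pool.Agent.Lib.MP_d9bc60_nt.UP
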