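import Pool.Agent.Lib.MP_d9bc60_nt.UP.U0Defs

/-! Row U8 (about 70 lines): few values of `f` in a window. -/

set_option autoImplicit false

namespace Pool.Agent.Lib.MP_d9bc60_nt.UP

open Finset Pool.Agent.Lib.MP_d9bc60_nt.Sieve

/-- Proof. If `x² + bx = m ∈ (0, M]` then `(2x+b)² = b² + 4m ∈ (b², b² + 4M]`; the nonnegative integers
`s` with `b² < s² ≤ b² + 4M` satisfy `|b| < s ≤ |b| + 2√M` (`(|b| + 2√M)² ≥ b² + 4M`), so `s` takes at
most `2√M` values, and `n = c + m` is determined by `s = |2x+b|` (`4m = s² - b²`). So the set is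
contained in the image of `s ↦ c + (s² - b²)/4` on `Icc (|b|+1) (|b| + ⌊2√M⌋)`. -/
theorem few_values (b c : ℤ) (M : ℕ) :
    {n : ℤ | c < n ∧ n ≤ c + M ∧ ∃ x : ℤ, x ^ 2 + b * x + c = n}.Finite ∧
    (({n : ℤ | c < n ∧ n ≤ c + M ∧ ∃ x : ℤ, x ^ 2 + b * x + c = n}.ncard : ℕ) : ℝ) ≤
      2 * Real.sqrt M := by
  classical
  obtain ⟨K, hK⟩ : ∃ K : ℕ, K = ⌊2 * Real.sqrt M⌋₊ := ⟨_, rfl⟩
  have hM0 : 0 ≤ Real.sqrt M := Real.sqrt_nonneg _
  have hKle : (K : ℝ) ≤ 2 * Real.sqrt M := by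
    rw [hK]
    exact Nat.floor_le (by positivity)
  have hsub : {n : ℤ | c < n ∧ n ≤ c + M ∧ ∃ x : ℤ, x ^ 2 + b * x + c = n} ⊆
      (((Finset.Icc (|b| + 1) (|b| + K)).image (fun s : ℤ => c + (s ^ 2 - b ^ 2) / 4) :
        Finset ℤ) : Set ℤ) := by
    rintro n ⟨h1, h2, x, hx⟩
    have hsq : |2 * x + b| ^ 2 = b ^ 2 + 4 * (n - c) := by
      rw [sq_abs, ← hx]; ring
    have hlt : |b| < |2 * x + b| := by
      have h3 : |b| ^ 2 < |2 * x + b| ^ 2 := by rw [hsq, sq_abs]; linarith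
      exact lt_of_pow_lt_pow_left₀ 2 (abs_nonneg _) h3
    rw [Finset.coe_image, Set.mem_image]
    refine ⟨|2 * x + b|, ?_, ?_⟩
    · rw [Finset.coe_Icc, Set.mem_Icc]
      refine ⟨by omega, ?_⟩
      have hR : ((|2 * x + b| : ℤ) : ℝ) ≤ ((|b| : ℤ) : ℝ) + 2 * Real.sqrt M := by
        have hb0 : (0 : ℝ) ≤ ((|b| : ℤ) : ℝ) := by exact_mod_cast abs_nonneg b
        refine le_of_pow_le_pow_left₀ two_ne_zero (by positivity) ?_
        have h4 : ((|2 * x + b| : ℤ) : ℝ) ^ 2 = ((|b| : ℤ) : ℝ) ^ 2 + 4 * ((n : ℝ) - c) := by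
          have h5 : |2 * x + b| ^ 2 = |b| ^ 2 + 4 * (n - c) := by rw [hsq, sq_abs]
          exact_mod_cast h5
        have h6 : ((n : ℝ) - c) ≤ M := by
          have h7 : n - c ≤ (M : ℤ) := by omega
          exact_mod_cast h7
        have h8 : Real.sqrt M ^ 2 = M := Real.sq_sqrt (Nat.cast_nonneg M)
        rw [h4]
        nlinarith [mul_nonneg hb0 hM0]
      have hN : (|2 * x + b| - |b|).toNat ≤ K := by
        rw [hK]
        apply Nat.le_floor
        have h9 : (((|2 * x + b| - |b|).toNat : ℕ) : ℝ) = ((|2 * x + b| : ℤ) : ℝ) - ((|b| : ℤ) : ℝ) := by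
          have h10 : (((|2 * x + b| - |b|).toNat : ℕ) : ℤ) = |2 * x + b| - |b| :=
            Int.toNat_of_nonneg (by omega)
          exact_mod_cast h10
        rw [h9]
        linarith
      omega
    · have h11 : |2 * x + b| ^ 2 - b ^ 2 = 4 * (n - c) := by rw [hsq]; ring
      simp only [h11]
      rw [Int.mul_ediv_cancel_left _ (by norm_num)]
      ring
  have hfin : {n : ℤ | c < n ∧ n ≤ c + M ∧ ∃ x : ℤ, x ^ 2 + b * x + c = n}.Finite :=
    (Finset.finite_toSet _).subset hsub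
  refine ⟨hfin, ?_⟩
  have hcard : {n : ℤ | c < n ∧ n ≤ c + M ∧ ∃ x : ℤ, x ^ 2 + b * x + c = n}.ncard ≤ K := by
    refine (Set.ncard_le_ncard hsub (Finset.finite_toSet _)).trans ?_
    rw [Set.ncard_coe_finset]
    refine Finset.card_image_le.trans ?_
    rw [Int.card_Icc]
    omega
  exact (Nat.cast_le.2 hcard).trans hKle

end Pool.Agent.Lib.MP_d9bc60_nt.UP
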