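import Pool.Agent.Lib.MP_d9bc60_nt.UP.U5Second
import Pool.Agent.Lib.MP_d9bc60_nt.UP.U6Paley
import Pool.Agent.Lib.MP_d9bc60_nt.UP.U7bParam

/-! Row U9a (about 150 lines): Paley–Zygmund applied. -/

set_option autoImplicit false

namespace Pool.Agent.Lib.MP_d9bc60_nt.UP

open Finset Pool.Agent.Lib.MP_d9bc60_nt.Sieve

private theorem u9a_mem (X P : ℝ) (hX : 2 ≤ X) (hP : 1 ≤ P) (b c : ℤ)
    (h : (((|b| : ℤ) : ℝ) + P) * P ≤ X / 100) (x : ℕ × ℕ) (hx : x ∈ (QS ⌊P⌋₊) ×ˢ (QX X)) :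
    g b c x ∈ Finset.Ioc c (c + (⌊X⌋₊ : ℤ)) := by
  obtain ⟨p, q⟩ := x
  rw [mem_product] at hx
  obtain ⟨h1, h2⟩ := hx
  simp only [QS, mem_filter, mem_Icc] at h1
  simp only [QX, QS, mem_filter, mem_Icc] at h2
  obtain ⟨⟨⟨h21, h22⟩, _⟩, h23⟩ := h2
  have hp : (p : ℝ) ≤ P := by
    have h3 : (p : ℝ) ≤ (⌊P⌋₊ : ℝ) := by exact_mod_cast h1.1.2
    exact h3.trans (Nat.floor_le (by linarith))
  have hq : (q : ℝ) ≤ X / 2 := by
    have h3 : (q : ℝ) ≤ (⌊X / 2⌋₊ : ℝ) := by exact_mod_cast h22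
    exact h3.trans (Nat.floor_le (by linarith))
  have hp0 : (0 : ℝ) ≤ p := Nat.cast_nonneg p
  have hb0 : (0 : ℝ) ≤ ((|b| : ℤ) : ℝ) := by exact_mod_cast abs_nonneg b
  have hbb : |(b : ℝ)| = ((|b| : ℤ) : ℝ) := by push_cast; rfl
  have hab : |(p : ℝ) ^ 2 + b * p| ≤ X / 100 := by
    calc |(p : ℝ) ^ 2 + b * p| ≤ |(p : ℝ) ^ 2| + |(b : ℝ) * p| := abs_add_le _ _
      _ = (p : ℝ) ^ 2 + ((|b| : ℤ) : ℝ) * p := by
          rw [abs_mul, hbb, abs_of_nonneg hp0, abs_of_nonneg (by positivity)]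
      _ = (((|b| : ℤ) : ℝ) + p) * p := by ring
      _ ≤ (((|b| : ℤ) : ℝ) + P) * P := by gcongr
      _ ≤ X / 100 := h
  obtain ⟨h4, h5⟩ := abs_le.1 hab
  have hg : ((g b c (p, q) : ℤ) : ℝ) = (p : ℝ) ^ 2 + b * p + c + q := by
    simp only [g, f]
    push_cast
    ring
  rw [mem_Ioc]
  constructor
  · have h6 : (c : ℝ) < ((g b c (p, q) : ℤ) : ℝ) := by rw [hg]; linarith
    exact_mod_cast h6
  · have h6 : ((g b c (p, q) - c : ℤ) : ℝ) ≤ X := by
      push_cast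
      rw [hg]
      linarith
    have h7 : g b c (p, q) - c ≤ ⌊X⌋ := Int.le_floor.2 h6
    have h8 : (⌊X⌋₊ : ℤ) = ⌊X⌋ := Int.natCast_floor_eq_floor (by linarith)
    rw [h8]
    linarith

private theorem u9a_arith (C m μ t W E X : ℝ) (hC : 0 < C) (hμ : 0 < μ) (hX : 0 < X) (hm : m = μ * X)
    (ht1 : (1 / 32) * m ≤ t) (ht2 : t ≤ 100 * m) (hE : E = 2 * t + 40 * C * (μ * m))
    (hW : t ^ 2 ≤ 4 * W * E) : 1 / (4096 * (200 + 40 * C)) * min 1 μ * X ≤ W := by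
  have hm0 : 0 < m := by rw [hm]; positivity
  have hE1 : E ≤ m * (200 + 40 * C * μ) := by rw [hE]; nlinarith
  have hEpos : 0 < E := by
    have : 0 < t := by linarith
    rw [hE]
    positivity
  have hden : 0 < 200 + 40 * C * μ := by positivity
  have hW1 : t ^ 2 / (4 * E) ≤ W := by
    rw [div_le_iff₀ (by positivity)]
    linarith
  refine le_trans ?_ hW1
  have h1 : ((1 / 32) * m) ^ 2 ≤ t ^ 2 := by
    apply pow_le_pow_left₀ (by positivity) ht1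
  have h2 : ((1 / 32) * m) ^ 2 / (4 * (m * (200 + 40 * C * μ))) ≤ t ^ 2 / (4 * E) := by
    apply div_le_div₀ (by positivity) h1 (by positivity)
    linarith
  refine le_trans ?_ h2
  have h3 : ((1 / 32) * m) ^ 2 / (4 * (m * (200 + 40 * C * μ))) = m / (4096 * (200 + 40 * C * μ)) := by
    field_simp
    ring
  rw [h3, hm]
  have h4 : min 1 μ * (200 + 40 * C * μ) ≤ μ * (200 + 40 * C) := by
    rcases le_total 1 μ with h | h
    · rw [min_eq_left h]; nlinarith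
    · rw [min_eq_right h]
      have : 40 * C * μ ≤ 40 * C := by nlinarith
      nlinarith
  rw [div_mul_eq_mul_div, div_mul_eq_mul_div, div_le_div_iff₀ (by positivity) (by positivity)]
  have h5 : 4096 * X * (min 1 μ * (200 + 40 * C * μ)) ≤ 4096 * X * (μ * (200 + 40 * C)) :=
    mul_le_mul_of_nonneg_left h4 (by positivity)
  linarith

/-- Proof. `T = QS ⌊P⌋ × QX X`, `V = Ioc c (c + ⌊X⌋)`. For `(p, q) ∈ T`: `|p² + bp| ≤ (|b| + P) P ≤ X/100`,
`X/50 < q ≤ X/2`, so `g b c (p,q) ∈ V` (an integer in `(c, c+X]`). `|T| ≥ (1/32) μ X`, `|T| ≤ 100 μ X`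
(`card_QS`, `card_QX`; `(P/log P)(X/log X) = μ X`). `E ≤ 2|T| + 10 (P/log P) 4C (X/log² X)(P/log P)
= 2|T| + 40 C μ² X` (`second_le` with `N = ⌊X/2⌋₊`, `second_param`; `|b| + 3Y ≤ X ≤ exp ⌊P⌋`: take
`|b| P ≤ X/100` and `P² ≤ X/100`, so `|b| + 3P ≤ X/10`, `exp ⌊P⌋ ≥ exp(P - 1) ≥ X/e`). `paley`:
`#W ≥ |T|²/(4E) ≥ (μX/32)²/(4(200 μ X + 40 C μ² X)) ≥ δ₁ min(1, μ) X`. -/
theorem paley_use : ∃ δ₁ : ℝ, 0 < δ₁ ∧ ∃ X₀ : ℝ, 2 ≤ X₀ ∧ ∀ X P : ℝ, X₀ ≤ X → Real.log X ≤ P →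
    ∀ b c : ℤ, (((|b| : ℤ) : ℝ) + P) * P ≤ X / 100 →
    δ₁ * min 1 (mu P X) * X ≤ (((Finset.Ioc c (c + (⌊X⌋₊ : ℤ))).filter (fun n =>
      ((QS ⌊P⌋₊) ×ˢ (QX X)).card ≤ 2 * (Finset.Ioc c (c + (⌊X⌋₊ : ℤ))).card *
        (((QS ⌊P⌋₊) ×ˢ (QX X)).filter (fun x => g b c x = n)).card)).card : ℝ) := by
  obtain ⟨C, hC, M₀, hM₀, h2⟩ := second_le
  obtain ⟨P₀, hP₀, hQS⟩ := card_QS
  obtain ⟨X₁, hX₁, hpar⟩ := second_param
  obtain ⟨X₂, hX₂, hQX⟩ := card_QX
  refine ⟨1 / (4096 * (200 + 40 * C)), by positivity,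
    max (Real.exp (P₀ + X₁ + M₀ + 2)) (max X₁ (max X₂ (2 * M₀ + 2))), ?_, ?_⟩
  · refine le_trans hX₁ ?_
    exact le_trans (le_max_left _ _) (le_max_right _ _)
  intro X P hX hPX b c hb
  have hXa : Real.exp (P₀ + X₁ + M₀ + 2) ≤ X := le_trans (le_max_left _ _) hX
  have hXb : X₁ ≤ X := le_trans (le_trans (le_max_left _ _) (le_max_right _ _)) hX
  have hXc : X₂ ≤ X :=
    le_trans (le_trans (le_trans (le_max_left _ _) (le_max_right _ _)) (le_max_right _ _)) hX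
  have hXd : 2 * (M₀ : ℝ) + 2 ≤ X :=
    le_trans (le_trans (le_trans (le_max_right _ _) (le_max_right _ _)) (le_max_right _ _)) hX
  have hX2 : 2 ≤ X := hX₁.trans hXb
  have hX0 : 0 < X := by linarith
  have hM0 : (2 : ℝ) ≤ M₀ := by exact_mod_cast hM₀
  have hlog : P₀ + X₁ + M₀ + 2 ≤ Real.log X := by
    rw [Real.le_log_iff_exp_le hX0]; exact hXa
  have hP1 : P₀ + X₁ + M₀ + 2 ≤ P := hlog.trans hPX
  have hPP : 1 ≤ P := by linarith
  have hP0 : 0 < P := by linarith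
  have hlX : 0 < Real.log X := by linarith
  have hlP : 0 < Real.log P := Real.log_pos (by linarith)
  obtain ⟨hq1, hq2, _⟩ := hQS P (by linarith)
  obtain ⟨hx1, hx2⟩ := hQX X hXc
  have hpr := hpar X P hXb (by linarith)
  have hb0 : (0 : ℝ) ≤ ((|b| : ℤ) : ℝ) := by exact_mod_cast abs_nonneg b
  set Y : ℕ := ⌊P⌋₊ with hY
  set N : ℕ := ⌊X / 2⌋₊ with hN
  have hYM : M₀ ≤ Y := Nat.le_floor (by linarith)
  have hNM : M₀ ≤ N := Nat.le_floor (by linarith)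
  have hYP : (Y : ℝ) ≤ P := Nat.floor_le hP0.le
  have hYP' : P - 1 ≤ Y := by
    have := Nat.lt_floor_add_one P
    linarith
  have hbY : ((|b| : ℤ) : ℝ) + 3 * Y ≤ Real.exp Y := by
    have e1 : ((|b| : ℤ) : ℝ) ≤ X / 100 := by
      have : ((|b| : ℤ) : ℝ) * 1 ≤ (((|b| : ℤ) : ℝ) + P) * P := by
        apply mul_le_mul _ hPP (by norm_num) (by positivity)
        linarith
      linarith
    have e2 : P ≤ X / 100 := by
      have : P * 1 ≤ (((|b| : ℤ) : ℝ) + P) * P := by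
        apply mul_le_mul _ hPP (by norm_num) (by positivity)
        linarith
      linarith
    have e3 : X / 3 ≤ Real.exp Y := by
      have e4 : Real.exp (Real.log X - 1) ≤ Real.exp Y := Real.exp_le_exp.2 (by linarith)
      rw [Real.exp_sub, Real.exp_log hX0] at e4
      refine le_trans ?_ e4
      apply div_le_div_of_nonneg_left hX0.le (Real.exp_pos _)
      exact (Real.exp_one_lt_d9.trans (by norm_num)).le
    linarith
  have hsub : QX X ⊆ QS N := filter_subset _ _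
  have hsec := h2 Y N hYM hNM b c hbY (QX X) hsub
  set T := (QS Y) ×ˢ (QX X) with hT
  have hTc : (T.card : ℝ) = ((QS Y).card : ℝ) * ((QX X).card : ℝ) := by
    rw [hT, card_product]; push_cast; ring
  have hmu : mu P X * X = P / Real.log P * (X / Real.log X) := by
    unfold mu; field_simp
  have hmu0 : 0 < mu P X := by unfold mu; positivity
  have hPl : 0 < P / Real.log P := by positivity
  have hXl : 0 < X / Real.log X := by positivity
  have ht1 : (1 / 32) * (mu P X * X) ≤ (T.card : ℝ) := by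
    rw [hTc, hmu]
    calc (1 / 32) * (P / Real.log P * (X / Real.log X)) =
          ((1 / 4) * (P / Real.log P)) * ((1 / 8) * (X / Real.log X)) := by ring
      _ ≤ _ := mul_le_mul hq1 hx1 (by positivity) (Nat.cast_nonneg _)
  have ht2 : (T.card : ℝ) ≤ 100 * (mu P X * X) := by
    rw [hTc, hmu]
    calc ((QS Y).card : ℝ) * ((QX X).card : ℝ) ≤ (10 * (P / Real.log P)) * (10 * (X / Real.log X)) :=
          mul_le_mul hq2 hx2 (Nat.cast_nonneg _) (by positivity)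
      _ = _ := by ring
  have hE : ∑ x ∈ T, ((T.filter (fun y => g b c y = g b c x)).card : ℝ) ≤
      2 * (T.card : ℝ) + 40 * C * (mu P X * (mu P X * X)) := by
    refine hsec.trans ?_
    have e1 : ((QS Y).card : ℝ) * (C * ((N : ℝ) / (Real.log N) ^ 2) * ((Y : ℝ) / Real.log Y)) ≤
        (10 * (P / Real.log P)) * (C * (4 * (X / (Real.log X) ^ 2) * (P / Real.log P))) := by
      apply mul_le_mul hq2 _ _ (by positivity)
      · rw [mul_assoc]
        exact mul_le_mul_of_nonneg_left hpr hC.le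
      · have : 0 ≤ Real.log (Y : ℝ) := Real.log_natCast_nonneg Y
        positivity
    have e2 : (10 * (P / Real.log P)) * (C * (4 * (X / (Real.log X) ^ 2) * (P / Real.log P))) =
        40 * C * (mu P X * (mu P X * X)) := by
      unfold mu; field_simp; ring
    rw [e2] at e1
    rw [hTc]
    linarith
  have hpal := paley T (g b c) (Finset.Ioc c (c + (⌊X⌋₊ : ℤ)))
    (fun x hx => u9a_mem X P hX2 hPP b c hb x hx) _ hE
  exact u9a_arith C (mu P X * X) (mu P X) (T.card : ℝ) _ _ X hC hmu0 hX0 rfl ht1 ht2 rfl hpal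

end Pool.Agent.Lib.MP_d9bc60_nt.UP
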