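import Pool.Agent.Lib.MP_d9bc60_nt.UP.U9aPaley
import Pool.Agent.Lib.MP_d9bc60_nt.UP.U8Values

/-! Row U9b (about 150 lines): the lower bound. -/

set_option autoImplicit false

namespace Pool.Agent.Lib.MP_d9bc60_nt.UP

open Finset Pool.Agent.Lib.MP_d9bc60_nt.Sieve

/-- The odd `n` in `(c, c+X]`, not a value of `f`, with at least `max(1, δ μ)` primes `p ≤ P` such that
`n - f(p)` is prime. -/
def Many (b c : ℤ) (X P δ : ℝ) : Set ℤ :=
  {n : ℤ | c < n ∧ (n : ℝ) ≤ c + X ∧ Odd n ∧ (¬ ∃ x : ℤ, x ^ 2 + b * x + c = n) ∧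
    1 ≤ {p : ℕ | p.Prime ∧ (p : ℝ) ≤ P ∧ ∃ q : ℕ, q.Prime ∧ n = (p : ℤ) ^ 2 + b * p + c + q}.ncard ∧
    δ * mu P X ≤ ({p : ℕ | p.Prime ∧ (p : ℝ) ≤ P ∧
      ∃ q : ℕ, q.Prime ∧ n = (p : ℤ) ^ 2 + b * p + c + q}.ncard : ℝ)}

theorem u9b_log : ∀ δ₁ : ℝ, 0 < δ₁ → ∃ X₁ : ℝ, ∀ X : ℝ, X₁ ≤ X → 2 * Real.sqrt X ≤ δ₁ / 2 * (X / Real.log X) := by
  intro δ₁ hδ
  have h1 := (isLittleO_log_rpow_atTop (r := 1 / 2) (by norm_num)).def (c := δ₁ / 4) (by positivity)
  obtain ⟨X₁, hX₁⟩ := Filter.eventually_atTop.1 h1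
  refine ⟨max X₁ 2, fun X hX => ?_⟩
  have hX2 : 2 ≤ X := (le_max_right _ _).trans hX
  have h2 := hX₁ X ((le_max_left _ _).trans hX)
  have hlog : 0 < Real.log X := Real.log_pos (by linarith)
  rw [Real.norm_of_nonneg hlog.le, Real.norm_of_nonneg (by positivity), ← Real.sqrt_eq_rpow] at h2
  have hs : Real.sqrt X * Real.sqrt X = X := Real.mul_self_sqrt (by linarith)
  have hs0 : 0 ≤ Real.sqrt X := Real.sqrt_nonneg X
  rw [← mul_div_assoc, le_div_iff₀ hlog]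
  nlinarith

theorem u9b_min (X P : ℝ) (hX : 3 ≤ X) (hP : 2 ≤ P) : 1 / Real.log X ≤ min 1 (mu P X) := by
  have hlX : 1 ≤ Real.log X := by
    rw [Real.le_log_iff_exp_le (by linarith)]
    have := Real.exp_one_lt_d9
    linarith
  have hlP : 0 < Real.log P := Real.log_pos (by linarith)
  refine le_min ?_ ?_
  · rw [div_le_one (by linarith)]
    exact hlX
  · have h1 : Real.log P ≤ P := by
      have := Real.log_le_sub_one_of_pos (show 0 < P by linarith)
      linarith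
    rw [mu, div_le_div_iff₀ (by linarith) (by positivity)]
    nlinarith

theorem u9b_finite (b c : ℤ) (P : ℝ) (n : ℤ) :
    {p : ℕ | p.Prime ∧ (p : ℝ) ≤ P ∧ ∃ q : ℕ, q.Prime ∧ n = (p : ℤ) ^ 2 + b * p + c + q}.Finite := by
  refine (Set.finite_Iic ⌊P⌋₊).subset ?_
  intro p hp
  exact Nat.le_floor hp.2.1

theorem u9b_card (b c : ℤ) (X P : ℝ) (hP : 0 ≤ P) (n : ℤ) :
    (((QS ⌊P⌋₊) ×ˢ (QX X)).filter (fun x => g b c x = n)).card ≤
      {p : ℕ | p.Prime ∧ (p : ℝ) ≤ P ∧ ∃ q : ℕ, q.Prime ∧ n = (p : ℤ) ^ 2 + b * p + c + q}.ncard := by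
  have h1 : (((QS ⌊P⌋₊) ×ˢ (QX X)).filter (fun x => g b c x = n)).card =
      ((((QS ⌊P⌋₊) ×ˢ (QX X)).filter (fun x => g b c x = n)).image (fun x => x.1)).card := by
    rw [Finset.card_image_of_injOn]
    intro x hx y hy hxy
    rw [Finset.mem_coe, Finset.mem_filter] at hx hy
    have e1 := hx.2
    have e2 := hy.2
    have e3 : x.1 = y.1 := hxy
    rw [← e2, g, g, e3] at e1
    have e4 : x.2 = y.2 := by
      have := add_left_cancel e1
      exact_mod_cast this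
    exact Prod.ext e3 e4
  rw [h1, ← Set.ncard_coe_finset]
  refine Set.ncard_le_ncard ?_ (u9b_finite b c P n)
  intro p hp
  rw [Finset.mem_coe, Finset.mem_image] at hp
  obtain ⟨x, hx, rfl⟩ := hp
  rw [Finset.mem_filter, Finset.mem_product, QS, Finset.mem_filter, Finset.mem_Icc, QX, Finset.mem_filter,
    QS, Finset.mem_filter] at hx
  refine ⟨hx.1.1.2.1, ?_, x.2, hx.1.2.1.2.1, ?_⟩
  · exact (Nat.cast_le.2 hx.1.1.1.2).trans (Nat.floor_le hP)
  · rw [← hx.2, g, f]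

theorem u9b_odd {b c : ℤ} (hbc : Odd (b + c)) {X P : ℝ} {n : ℤ}
    (h : 1 ≤ (((QS ⌊P⌋₊) ×ˢ (QX X)).filter (fun x => g b c x = n)).card) : Odd n := by
  obtain ⟨x, hx⟩ := Finset.card_pos.1 h
  rw [Finset.mem_filter, Finset.mem_product, QS, Finset.mem_filter, QX, Finset.mem_filter,
    QS, Finset.mem_filter] at hx
  have o1 : Odd (x.1 : ℤ) := by
    have := hx.1.1.2.1.odd_of_ne_two (by have := hx.1.1.2.2; omega)
    exact_mod_cast this
  have o2 : Odd (x.2 : ℤ) := by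
    have := hx.1.2.1.2.1.odd_of_ne_two (by have := hx.1.2.1.2.2; omega)
    exact_mod_cast this
  rw [← hx.2, g, f]
  obtain ⟨u, hu⟩ := o1
  obtain ⟨v, hv⟩ := o2
  obtain ⟨w, hw⟩ := hbc
  refine ⟨2 * u ^ 2 + 2 * u + b * u + v + w + 1, ?_⟩
  rw [hu, hv]
  have : c = 2 * w + 1 - b := by linarith
  rw [this]
  ring

/-- Proof. From `paley_use`: an `n` of the filter has `r(n) = #{x ∈ T : g x = n} ≥ |T|/(2 ⌊X⌋) ≥ μ/64 > 0`, so
`r(n) ≥ 1` (integer) and `r(n) ≥ μ/64`; `(p,q) ↦ p` is injective on `g b c (p,q) = n`, so the `ncard`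
of `Many` is at least `r(n)` (that set is finite: `p ≤ P`). `n` is odd: `p, q` odd, `b + c` odd
(`p² + bp + c + q ≡ 1 + b + c + 1`). Remove the values of `f`: at most `2 √⌊X⌋₊ ≤ (δ₁/2) min(1, μ) X`
(`few_values`; `μ ≥ 1/log log X`-size since `P ≥ log X`: `μ = P/(log P log X) ≥ 1/log P ≥ 1/log X` as
`P ≤ X`, so it suffices that `2√X ≤ (δ₁/2) X/log X` for large `X`). `δ = min(δ₁/2, 1/64)`. -/
theorem lower : ∃ δ : ℝ, 0 < δ ∧ ∃ X₀ : ℝ, 2 ≤ X₀ ∧ ∀ X P : ℝ, X₀ ≤ X → Real.log X ≤ P →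
    ∀ b c : ℤ, Odd (b + c) → (((|b| : ℤ) : ℝ) + P) * P ≤ X / 100 →
    δ * min 1 (mu P X) * X ≤ ((Many b c X P δ).ncard : ℝ) := by
  obtain ⟨δ₁, hδ₁, X₁, hX₁, hpal⟩ := paley_use
  obtain ⟨P₀, hP₀, hcP⟩ := card_QS
  obtain ⟨X₂, hX₂, hcX⟩ := card_QX
  obtain ⟨X₃, hlog⟩ := u9b_log δ₁ hδ₁
  refine ⟨min (δ₁ / 2) (1 / 64), lt_min (by positivity) (by norm_num),
    max (max (max X₁ X₂) (max X₃ (Real.exp P₀))) (Real.exp 2), ?_, ?_⟩
  · refine le_trans ?_ (le_max_right _ _)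
    have := Real.add_one_le_exp (2 : ℝ)
    linarith
  intro X P hX hXP b c hbc hb
  have g1 : X₁ ≤ X := le_trans (le_trans (le_trans (le_max_left _ _) (le_max_left _ _)) (le_max_left _ _)) hX
  have g2 : X₂ ≤ X := le_trans (le_trans (le_trans (le_max_right _ _) (le_max_left _ _)) (le_max_left _ _)) hX
  have g3 : X₃ ≤ X := le_trans (le_trans (le_trans (le_max_left _ _) (le_max_right _ _)) (le_max_left _ _)) hX
  have g4 : Real.exp P₀ ≤ X := le_trans (le_trans (le_trans (le_max_right _ _) (le_max_right _ _)) (le_max_left _ _)) hX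
  have g5 : Real.exp 2 ≤ X := (le_max_right _ _).trans hX
  have hX3 : 3 ≤ X := by
    have := Real.add_one_le_exp (2 : ℝ)
    linarith
  have hX0 : 0 < X := by linarith
  have hP₀P : P₀ ≤ P := le_trans ((Real.le_log_iff_exp_le hX0).2 g4) hXP
  have hP2 : 2 ≤ P := le_trans ((Real.le_log_iff_exp_le hX0).2 g5) hXP
  have hlX : 0 < Real.log X := Real.log_pos (by linarith)
  have hlP : 0 < Real.log P := Real.log_pos (by linarith)
  have hmin := u9b_min X P hX3 hP2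
  have hmin0 : 0 < min 1 (mu P X) := lt_of_lt_of_le (by positivity) hmin
  have hmu0 : 0 < mu P X := lt_of_lt_of_le hmin0 (min_le_right _ _)
  have hpal' := hpal X P g1 hXP b c hb
  set M : ℕ := ⌊X⌋₊ with hM
  have hMX : (M : ℝ) ≤ X := Nat.floor_le hX0.le
  set W := (Finset.Ioc c (c + (M : ℤ))).filter (fun n =>
      ((QS ⌊P⌋₊) ×ˢ (QX X)).card ≤ 2 * (Finset.Ioc c (c + (M : ℤ))).card *
        (((QS ⌊P⌋₊) ×ˢ (QX X)).filter (fun x => g b c x = n)).card) with hW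
  obtain ⟨hFfin, hFcard⟩ := few_values b c M
  set F : Set ℤ := {n : ℤ | c < n ∧ n ≤ c + M ∧ ∃ x : ℤ, x ^ 2 + b * x + c = n} with hF
  set δ : ℝ := min (δ₁ / 2) (1 / 64) with hδ
  have hT : (1 / 32) * mu P X * X ≤ ((((QS ⌊P⌋₊) ×ˢ (QX X)).card : ℕ) : ℝ) := by
    rw [Finset.card_product]
    push_cast
    have a1 := (hcP P hP₀P).1
    have a2 := (hcX X g2).1
    calc (1 / 32) * mu P X * X = ((1 / 4) * (P / Real.log P)) * ((1 / 8) * (X / Real.log X)) := by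
          rw [mu]
          field_simp
          norm_num
      _ ≤ _ := mul_le_mul a1 a2 (by positivity) (Nat.cast_nonneg _)
  have hsub : (W : Set ℤ) \ F ⊆ Many b c X P δ := by
    intro n hn
    have hnW := hn.1
    rw [Finset.mem_coe, hW, Finset.mem_filter, Finset.mem_Ioc, Int.card_Ioc] at hnW
    have hnF := hn.2
    have hcM : (c + (M : ℤ) - c).toNat = M := by simp
    rw [hcM] at hnW
    obtain ⟨⟨n1, n2⟩, n3⟩ := hnW
    set r := (((QS ⌊P⌋₊) ×ˢ (QX X)).filter (fun x => g b c x = n)).card with hr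
    have hr1 : mu P X / 64 ≤ (r : ℝ) := by
      have n3' : ((((QS ⌊P⌋₊) ×ˢ (QX X)).card : ℕ) : ℝ) ≤ 2 * M * r := by exact_mod_cast n3
      have n4 : 2 * (M : ℝ) * r ≤ 2 * X * r := by
        refine mul_le_mul_of_nonneg_right ?_ (Nat.cast_nonneg _)
        linarith
      have n5 : (1 / 32) * mu P X * X ≤ 2 * X * r := hT.trans (n3'.trans n4)
      have n6 : mu P X / 64 * X ≤ (r : ℝ) * X := by linarith
      exact le_of_mul_le_mul_right n6 hX0
    have hrpos : (0 : ℝ) < r := lt_of_lt_of_le (by positivity) hr1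
    have hr2 : 1 ≤ r := by exact_mod_cast hrpos
    have hcard := u9b_card b c X P (by linarith) n
    refine ⟨n1, ?_, u9b_odd hbc hr2, ?_, hr2.trans hcard, ?_⟩
    · have n2' : (n : ℝ) ≤ c + M := by exact_mod_cast n2
      linarith
    · intro hx
      exact hnF ⟨n1, n2, hx⟩
    · calc δ * mu P X ≤ (1 / 64) * mu P X := mul_le_mul_of_nonneg_right (min_le_right _ _) hmu0.le
        _ = mu P X / 64 := by ring
        _ ≤ (r : ℝ) := hr1
        _ ≤ _ := by exact_mod_cast hcard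
  have hfin : (Many b c X P δ).Finite := by
    refine (Set.finite_Ioc c (c + (M : ℤ))).subset ?_
    intro n hn
    refine ⟨hn.1, ?_⟩
    have h1 : (((n - c).toNat : ℕ) : ℝ) ≤ X := by
      have h2 : (((n - c).toNat : ℕ) : ℤ) = n - c := Int.toNat_of_nonneg (by have := hn.1; omega)
      have h3 : (((n - c).toNat : ℕ) : ℝ) = n - c := by exact_mod_cast h2
      rw [h3]
      have := hn.2.1
      linarith
    have h4 : (n - c).toNat ≤ M := Nat.le_floor h1
    have h5 := Int.toNat_of_nonneg (show 0 ≤ n - c by have := hn.1; omega)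
    omega
  have hcard1 : (W.card : ℝ) ≤ ((Many b c X P δ).ncard : ℝ) + (F.ncard : ℝ) := by
    have h1 : ((W : Set ℤ) \ F).ncard ≤ (Many b c X P δ).ncard := Set.ncard_le_ncard hsub hfin
    have h2 : (W : Set ℤ).ncard ≤ ((W : Set ℤ) \ F).ncard + F.ncard := by
      have := Set.ncard_le_ncard_sdiff_add_ncard (W : Set ℤ) F hFfin
      exact this
    rw [Set.ncard_coe_finset] at h2
    have h3 : W.card ≤ (Many b c X P δ).ncard + F.ncard := by omega
    exact_mod_cast h3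
  have hsq : (F.ncard : ℝ) ≤ δ₁ / 2 * (min 1 (mu P X) * X) := by
    have h1 : Real.sqrt M ≤ Real.sqrt X := Real.sqrt_le_sqrt hMX
    have h2 := hlog X g3
    have h3 : X / Real.log X ≤ min 1 (mu P X) * X := by
      calc X / Real.log X = 1 / Real.log X * X := by ring
        _ ≤ min 1 (mu P X) * X := mul_le_mul_of_nonneg_right hmin hX0.le
    have h4 : δ₁ / 2 * (X / Real.log X) ≤ δ₁ / 2 * (min 1 (mu P X) * X) :=
      mul_le_mul_of_nonneg_left h3 (by positivity)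
    linarith
  have hδle : δ * min 1 (mu P X) * X ≤ δ₁ / 2 * (min 1 (mu P X) * X) := by
    rw [mul_assoc]
    exact mul_le_mul_of_nonneg_right (min_le_left _ _) (by positivity)
  have hfinal : δ₁ * min 1 (mu P X) * X = 2 * (δ₁ / 2 * (min 1 (mu P X) * X)) := by ring
  linarith

end Pool.Agent.Lib.MP_d9bc60_nt.UP
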